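import Pool.Agent.J4.H7.FB.Van
import Pool.Agent.J4.H7.FG.Gcd

/-!
# The alternative: divisibility by `w N - κ`, or a small element of the ideal
-/

set_option autoImplicit false

namespace Pool.Agent.J4.H7.FB

open Pool.Agent.N449.SQ QuadraticAlgebra Polynomial Finset

/-- exponents which are at most `N / 2` -/
theorem alt_reduced (N K t : ℕ) (hN : 0 < N) (ht : 2 ≤ t) (κ : ℤˣ) (c c' : Fin K → R1) (a : Fin K → ℤ)
    (ha : ∀ i, 2 * |a i| ≤ N) (I : Ideal R1) (h1 : w 1 N - ((κ : ℤ) : R1) ∈ I)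
    (h2 : ∑ i, (c i * w 1 (a i) + c' i * w 1 (-a i)) ∈ I)
    (h3 : ¬ w 1 N - ((κ : ℤ) : R1) ∣ ∑ i, (c i * w 1 (a i) + c' i * w 1 (-a i))) :
    ∃ q : ℕ, 0 < q ∧ q ≤ t ^ K ∧ (Irreducible (X ^ q - C (((κ : ℤ) : K1) * ω ^ N) : K1[X]) →
      ∃ x ∈ I, x ≠ 0 ∧ ∀ σ : R1 →+* ℝ, (∀ z, |σ z| ≤ hs 1 z) → (∀ x : ℤ, |σ (w 1 x)| ≤ eps 1 ^ |x|) →
        |σ x| ≤ ((∑ i, (hs 1 (c i) + hs 1 (c' i))) * eps 1 ^ (N / (t * q) + 1)) ^ q) := by
  have hNz : (0 : ℤ) < N := by exact_mod_cast hN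
  obtain ⟨q, hq, hqt, α, hα⟩ := Pool.Agent.J4.H7.FG.dirichlet K t N (by omega) hN (fun i => (a i + N).toNat)
  refine ⟨q, hq, hqt, fun hirr => ?_⟩
  have hqz : (0 : ℤ) < q := by exact_mod_cast hq
  have htz : (2 : ℤ) ≤ t := by exact_mod_cast ht
  obtain ⟨β, hβ⟩ : ∃ β : Fin K → ℤ, β = fun i => α i - q := ⟨_, rfl⟩
  have hb : ∀ i, (t : ℤ) * |(q : ℤ) * a i - β i * N| < N := by
    intro i
    have h4 := hα i
    have h5 := ha i
    have h6 := neg_abs_le (a i)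
    rw [Int.toNat_of_nonneg (by linarith)] at h4
    rw [hβ]
    simp only
    rwa [show (q : ℤ) * a i - (α i - q) * N = q * (a i + N) - α i * N by ring]
  have hb2 : ∀ i, 2 * |β i| ≤ q := by
    intro i
    have h4 := hb i
    have h5 := ha i
    have h6 : 2 * |(q : ℤ) * a i - β i * N| < N :=
      lt_of_le_of_lt (mul_le_mul_of_nonneg_right htz (abs_nonneg _)) h4
    have h7 : |β i| * N ≤ q * |a i| + |(q : ℤ) * a i - β i * N| := by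
      have h8 : |β i * N| ≤ |(q : ℤ) * a i| + |(q : ℤ) * a i - β i * N| := by
        have : β i * N = q * a i - (q * a i - β i * N) := by ring
        calc |β i * N| = |(q : ℤ) * a i - (q * a i - β i * N)| := by rw [← this]
          _ ≤ _ := abs_sub _ _
      rwa [abs_mul, abs_mul, abs_of_pos hNz, abs_of_pos hqz] at h8
    have h9 : (2 * |β i|) * N < (q + 1) * N := by
      have : (q : ℤ) * (2 * |a i|) ≤ q * N := mul_le_mul_of_nonneg_left h5 hqz.le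
      linarith
    have h10 := lt_of_mul_lt_mul_right h9 hNz.le
    omega
  obtain ⟨C', hC'⟩ : ∃ C' : Fin K ⊕ Fin K → R1, C' = Sum.elim c c' := ⟨_, rfl⟩
  obtain ⟨b, hbb⟩ : ∃ b : Fin K ⊕ Fin K → ℤ, b = Sum.elim a (fun i => -a i) := ⟨_, rfl⟩
  obtain ⟨γ, hγ⟩ : ∃ γ : Fin K ⊕ Fin K → ℤ, γ = Sum.elim β (fun i => -β i) := ⟨_, rfl⟩
  have hB : ∑ j, C' j * w 1 (b j) = ∑ i, (c i * w 1 (a i) + c' i * w 1 (-a i)) := by
    rw [Fintype.sum_sum_type, Finset.sum_add_distrib, hC', hbb]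
    simp only [Sum.elim_inl, Sum.elim_inr]
  have hH : ∑ j, hs 1 (C' j) = ∑ i, (hs 1 (c i) + hs 1 (c' i)) := by
    rw [Fintype.sum_sum_type, Finset.sum_add_distrib, hC']
    simp only [Sum.elim_inl, Sum.elim_inr]
  have hγ2 : ∀ j, 2 * |γ j| ≤ q := by
    rintro (i | i) <;> rw [hγ] <;> simp only [Sum.elim_inl, Sum.elim_inr, abs_neg] <;> exact hb2 i
  have happ : ∀ j, (t : ℤ) * |(q : ℤ) * b j - γ j * N| ≤ N := by
    rintro (i | i) <;> rw [hγ, hbb] <;> simp only [Sum.elim_inl, Sum.elim_inr]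
    · exact (hb i).le
    · rw [show (q : ℤ) * -a i - -β i * N = -(q * a i - β i * N) by ring, abs_neg]
      exact (hb i).le
  refine ⟨(Mx N q κ C' b γ).det, det_mem N q hq κ C' b γ I h1 (by rw [hB]; exact h2), ?_, ?_⟩
  · intro hdet
    exact h3 (by rw [← hB]; exact dvd_of_det N q hq κ hirr C' b γ hγ2 hdet)
  · intro σ hσ hw
    rw [← hH]
    exact det_bound N q t hq (by omega) κ C' b γ happ σ hσ hw

/-- **the alternative** -/
theorem alt (N K t : ℕ) (hN : 0 < N) (ht : 2 ≤ t) (κ : ℤˣ) (c c' : Fin K → R1) (a : Fin K → ℤ)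
    (I : Ideal R1) (h1 : w 1 N - ((κ : ℤ) : R1) ∈ I)
    (h2 : ∑ i, (c i * w 1 (a i) + c' i * w 1 (-a i)) ∈ I)
    (h3 : ¬ w 1 N - ((κ : ℤ) : R1) ∣ ∑ i, (c i * w 1 (a i) + c' i * w 1 (-a i))) :
    ∃ q : ℕ, 0 < q ∧ q ≤ t ^ K ∧ (Irreducible (X ^ q - C (((κ : ℤ) : K1) * ω ^ N) : K1[X]) →
      ∃ x ∈ I, x ≠ 0 ∧ ∀ σ : R1 →+* ℝ, (∀ z, |σ z| ≤ hs 1 z) → (∀ x : ℤ, |σ (w 1 x)| ≤ eps 1 ^ |x|) →
        |σ x| ≤ ((∑ i, (hs 1 (c i) + hs 1 (c' i))) * eps 1 ^ (N / (t * q) + 1)) ^ q) := by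
  have hNz : (0 : ℤ) < N := by exact_mod_cast hN
  obtain ⟨l, hl⟩ : ∃ l : Fin K → ℤ, l = fun i => (2 * a i + N) / (2 * N) := ⟨_, rfl⟩
  obtain ⟨a', ha'⟩ : ∃ a' : Fin K → ℤ, a' = fun i => a i - N * l i := ⟨_, rfl⟩
  have hab : ∀ i, 2 * |a' i| ≤ N := by
    intro i
    have h4 : (2 * (N : ℤ)) * l i ≤ 2 * a i + N := by
      rw [hl]; exact Int.mul_ediv_self_le (by linarith)
    have h5 : 2 * a i + N < (2 * (N : ℤ)) * l i + 2 * N := by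
      rw [hl]; exact Int.lt_mul_ediv_self_add (by linarith)
    have h6 : -(N : ℤ) ≤ 2 * a' i := by rw [ha']; simp only; linarith
    have h7 : 2 * a' i ≤ N := by rw [ha']; simp only; linarith
    rw [← abs_two (α := ℤ), ← abs_mul, abs_le]
    exact ⟨h6, h7⟩
  obtain ⟨e, he⟩ : ∃ e : Fin K → R1, e = fun i => (((κ ^ l i : ℤˣ) : ℤ) : R1) * c i := ⟨_, rfl⟩
  obtain ⟨e', he'⟩ : ∃ e' : Fin K → R1, e' = fun i => (((κ ^ l i : ℤˣ) : ℤ) : R1) * c' i := ⟨_, rfl⟩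
  -- congruence
  obtain ⟨I0, hI0⟩ : ∃ I0 : Ideal R1, I0 = Ideal.span {w 1 N - ((κ : ℤ) : R1)} := ⟨_, rfl⟩
  have hcong : ∑ i, (c i * w 1 (a i) + c' i * w 1 (-a i)) - ∑ i, (e i * w 1 (a' i) + e' i * w 1 (-a' i)) ∈ I0 := by
    rw [← Finset.sum_sub_distrib]
    apply Ideal.sum_mem
    intro i _
    obtain ⟨ρ, hρ⟩ : ∃ ρ : R1 →+* R1 ⧸ I0, ρ = Ideal.Quotient.mk I0 := ⟨_, rfl⟩
    rw [← Ideal.Quotient.eq_zero_iff_mem, ← hρ]
    have hW : W ρ ^ (N : ℤ) = κS (R1 ⧸ I0) κ := by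
      apply Units.ext
      rw [← map_w ρ]
      have h4 : ρ (w 1 N - ((κ : ℤ) : R1)) = 0 := by
        rw [hρ, Ideal.Quotient.eq_zero_iff_mem, hI0]
        exact Ideal.mem_span_singleton_self _
      rw [map_sub, map_intCast] at h4
      exact sub_eq_zero.1 h4
    have hinv : (κS (R1 ⧸ I0) κ)⁻¹ = κS (R1 ⧸ I0) κ := by
      unfold κS
      rw [← map_inv, Int.units_inv_eq_self]
    have h5 : W ρ ^ (a i) = κS (R1 ⧸ I0) κ ^ l i * W ρ ^ (a' i) := by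
      rw [← hW, ← zpow_mul, ← zpow_add, ha']
      congr 1
      ring
    have h6 : W ρ ^ (-a i) = κS (R1 ⧸ I0) κ ^ l i * W ρ ^ (-a' i) := by
      have : κS (R1 ⧸ I0) κ ^ l i = (W ρ ^ (N : ℤ)) ^ (-l i) := by rw [hW, zpow_neg, ← inv_zpow, hinv]
      rw [this, ← zpow_mul, ← zpow_add, ha']
      congr 1
      ring
    simp only [map_sub, map_add, map_mul, map_w ρ, h5, h6, he, he', Units.val_mul, κS_zpow, map_intCast]
    ring
  have hI : I0 ≤ I := by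
    rw [hI0, Ideal.span_le, Set.singleton_subset_iff]
    exact h1
  have h2' : ∑ i, (e i * w 1 (a' i) + e' i * w 1 (-a' i)) ∈ I := by
    have := I.sub_mem h2 (hI hcong)
    rwa [sub_sub_cancel] at this
  have h3' : ¬ w 1 N - ((κ : ℤ) : R1) ∣ ∑ i, (e i * w 1 (a' i) + e' i * w 1 (-a' i)) := by
    intro h
    apply h3
    rw [← Ideal.mem_span_singleton, ← hI0] at h ⊢
    have := I0.add_mem hcong h
    rwa [sub_add_cancel] at this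
  have hhs : ∑ i, (hs 1 (e i) + hs 1 (e' i)) = ∑ i, (hs 1 (c i) + hs 1 (c' i)) := by
    apply Finset.sum_congr rfl
    intro i _
    rw [he, he']
    simp only
    rcases Int.units_eq_one_or (κ ^ l i) with h | h <;> rw [h] <;> simp [hs_neg]
  obtain ⟨q, hq, hqt, h4⟩ := alt_reduced N K t hN ht κ e e' a' hab I h1 h2' h3'
  rw [hhs] at h4
  exact ⟨q, hq, hqt, h4⟩

/-- the two embeddings -/
lemma emb_one : (∀ z, |s₁ 1 z| ≤ hs 1 z) ∧ (∀ x : ℤ, |s₁ 1 (w 1 x)| ≤ eps 1 ^ |x|) := by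
  refine ⟨fun z => le_max_left _ _, fun x => ?_⟩
  rw [s₁_w, abs_of_pos (zpow_pos (eps_pos 1) _)]
  exact zpow_le_zpow_right₀ (one_lt_eps le_rfl).le (le_abs_self x)

lemma emb_two : (∀ z, |s₂ 1 z| ≤ hs 1 z) ∧ (∀ x : ℤ, |s₂ 1 (w 1 x)| ≤ eps 1 ^ |x|) := by
  refine ⟨fun z => le_max_right _ _, fun x => ?_⟩
  rw [abs_s₂_w]
  exact zpow_le_zpow_right₀ (one_lt_eps le_rfl).le (neg_le_abs x)

end Pool.Agent.J4.H7.FB
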