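import Pool.Agent.J4.H7.FB.Irr
import Pool.Agent.J4.H7.FG.Irr

/-!
# Irreducibility of `X ^ q + ω ^ (2 ^ m)` over `ℚ(√5)`, `q ≤ 2 ^ m`
-/

set_option autoImplicit false

namespace Pool.Agent.J4.H7.FB

open Pool.Agent.N449.SQ QuadraticAlgebra Polynomial

/-- `2` is not a norm -/
lemma no_norm_two_int : ∀ (n : ℕ) (x y z : ℤ), z.natAbs = n → z ≠ 0 → x ^ 2 + x * y - y ^ 2 ≠ 2 * z ^ 2 := by
  intro n
  induction n using Nat.strong_induction_on with
  | _ n ih =>
    intro x y z hz hz0 h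
    have hx : Even x ∧ Even y := by
      have h1 : Even (x ^ 2 + x * y - y ^ 2) := by rw [h]; exact even_two_mul _
      rcases Int.even_or_odd x with hx | hx <;> rcases Int.even_or_odd y with hy | hy
      · exact ⟨hx, hy⟩
      · exfalso
        obtain ⟨a, rfl⟩ := hx
        obtain ⟨b, rfl⟩ := hy
        obtain ⟨c, hc⟩ := h1
        ring_nf at hc
        omega
      · exfalso
        obtain ⟨a, rfl⟩ := hx
        obtain ⟨b, rfl⟩ := hy
        obtain ⟨c, hc⟩ := h1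
        ring_nf at hc
        omega
      · exfalso
        obtain ⟨a, rfl⟩ := hx
        obtain ⟨b, rfl⟩ := hy
        obtain ⟨c, hc⟩ := h1
        ring_nf at hc
        omega
    obtain ⟨⟨a, rfl⟩, ⟨b, rfl⟩⟩ := hx
    have h2 : z ^ 2 = 2 * (a ^ 2 + a * b - b ^ 2) := by linarith
    have hze : Even z := by
      have : Even (z ^ 2) := by rw [h2]; exact even_two_mul _
      exact (Int.even_pow' two_ne_zero).1 this
    obtain ⟨c, rfl⟩ := hze
    refine ih c.natAbs ?_ a b c rfl (by rintro rfl; simp at hz0) (by linarith)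
    have : c ≠ 0 := by rintro rfl; simp at hz0
    omega

lemma no_norm_two (z : K1) : norm z ≠ 2 := by
  intro h
  rw [norm_def] at h
  obtain ⟨x, hx⟩ : ∃ x : ℚ, x = z.re := ⟨_, rfl⟩
  obtain ⟨y, hy⟩ : ∃ y : ℚ, y = z.im := ⟨_, rfl⟩
  rw [← hx, ← hy] at h
  have hxd : (x.den : ℚ) ≠ 0 := by exact_mod_cast x.den_ne_zero
  have hyd : (y.den : ℚ) ≠ 0 := by exact_mod_cast y.den_ne_zero
  have hxn : x * x.den = x.num := Rat.mul_den_eq_num x
  have hyn : y * y.den = y.num := Rat.mul_den_eq_num y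
  refine no_norm_two_int _ (x.num * y.den) (y.num * x.den) (x.den * y.den) rfl ?_ ?_
  · exact mul_ne_zero (by exact_mod_cast x.den_ne_zero) (by exact_mod_cast y.den_ne_zero)
  · have : (((x.num * y.den) ^ 2 + (x.num * y.den) * (y.num * x.den) - (y.num * x.den) ^ 2 : ℤ) : ℚ) =
        ((2 * (x.den * y.den) ^ 2 : ℤ) : ℚ) := by
      push_cast
      rw [← hxn, ← hyn]
      push_cast at h
      linear_combination ((x.den : ℚ) * y.den) ^ 2 * h
    exact_mod_cast this

/-- `X ^ (2 ^ j) + 1` -/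
theorem irr_cyc' (j : ℕ) : Irreducible (X ^ (2 ^ j) + 1 : K1[X]) := by
  have h2j : 0 < 2 ^ j := by positivity
  obtain ⟨P, hP⟩ : ∃ P : K1[X], P = X ^ (2 ^ j) + 1 := ⟨_, rfl⟩
  obtain ⟨P0, hP0⟩ : ∃ P0 : ℚ[X], P0 = X ^ (2 ^ j) + 1 := ⟨_, rfl⟩
  have hm : P.Monic := by rw [hP]; exact monic_X_pow_add_C (1 : K1) h2j.ne'
  have hm0 : P0.Monic := by rw [hP0]; exact monic_X_pow_add_C (1 : ℚ) h2j.ne'
  have hdeg : P.natDegree = 2 ^ j := by rw [hP]; exact natDegree_X_pow_add_C (r := (1 : K1))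
  have hdeg0 : P0.natDegree = 2 ^ j := by rw [hP0]; exact natDegree_X_pow_add_C (r := (1 : ℚ))
  have hirr0 : Irreducible P0 := by rw [hP0]; exact Pool.Agent.J4.H7.FG.irr_cyc j
  obtain ⟨i, hi⟩ : ∃ i : ℚ →+* K1, i = algebraMap ℚ K1 := ⟨_, rfl⟩
  have hmap : P0.map i = P := by rw [hP0, hP]; simp
  rw [← hP, hm.irreducible_iff_natDegree]
  refine ⟨by intro h; rw [h, natDegree_one] at hdeg; omega, ?_⟩
  intro f g hf hg hfg
  have hd : f.natDegree + g.natDegree = 2 ^ j := by rw [← hf.natDegree_mul hg, hfg, hdeg]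
  by_contra hcon
  push Not at hcon
  obtain ⟨hf0, hg0⟩ := hcon
  obtain ⟨st, hst⟩ : ∃ st : K1 →+* K1, st = starRingEnd K1 := ⟨_, rfl⟩
  have hstz : ∀ z, st z = star z := fun z => by rw [hst]; rfl
  obtain ⟨F, hF⟩ : ∃ F, F = f * f.map st := ⟨_, rfl⟩
  have hFm : F.Monic := by rw [hF]; exact hf.mul (hf.map st)
  have hFst : F.map st = F := by
    rw [hF, Polynomial.map_mul, Polynomial.map_map, mul_comm]
    congr 1
    have : st.comp st = RingHom.id K1 := by
      ext z <;> simp [hstz]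
    rw [this, Polynomial.map_id]
  obtain ⟨G, hG⟩ : ∃ G : ℚ[X], G.map i = F := by
    have h1 : F ∈ Polynomial.lifts i := by
      rw [lifts_iff_coeff_lifts]
      intro n
      refine ⟨(F.coeff n).re, ?_⟩
      have h2 : star (F.coeff n) = F.coeff n := by
        rw [← hstz, ← coeff_map, hFst]
      have h3 := congrArg QuadraticAlgebra.im h2
      simp only [im_star] at h3
      have h4 : (F.coeff n).im = 0 := by linarith
      rw [hi]
      ext
      · simp
      · simp [h4]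
    exact (mem_lifts _).1 h1
  have hGm : G.Monic := by
    have : (G.map i).Monic := by rw [hG]; exact hFm
    exact monic_of_injective i.injective this
  have hGd : G.natDegree = 2 * f.natDegree := by
    have h1 : (G.map i).natDegree = F.natDegree := by rw [hG]
    rw [natDegree_map, hF, hf.natDegree_mul (hf.map st), natDegree_map] at h1
    omega
  have hPst : P.map st = P := by rw [hP]; simp
  have hdvd : G ∣ P0 ^ 2 := by
    rw [← map_dvd_map i i.injective hGm, Polynomial.map_pow, hmap, hG, hF]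
    refine ⟨g * g.map st, ?_⟩
    have h1 : f.map st * g.map st = P := by rw [← Polynomial.map_mul, hfg, hPst]
    calc P ^ 2 = (f * g) * (f.map st * g.map st) := by rw [hfg, h1, sq]
      _ = _ := by ring
  obtain ⟨n, hn, hass⟩ := (dvd_prime_pow hirr0.prime 2).1 hdvd
  have hGeq : G = P0 ^ n := eq_of_monic_of_associated hGm (hm0.pow n) hass
  have hn1 : n = 1 := by
    have h1 : G.natDegree = n * 2 ^ j := by rw [hGeq, hm0.natDegree_pow, hdeg0]
    rw [hGd] at h1
    have hfl : f.natDegree < 2 ^ j := by omega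
    have hfl0 : 0 < f.natDegree := Nat.pos_of_ne_zero hf0
    rcases (by omega : n = 0 ∨ n = 1 ∨ n = 2) with h | h | h
    · subst h; omega
    · exact h
    · subst h; omega
  rw [hn1, pow_one] at hGeq
  have h1 : F.eval 1 = 2 := by
    rw [← hG, hGeq, hmap, hP]
    simp only [eval_add, eval_pow, eval_X, one_pow, eval_one]
    norm_num
  have h2 : F.eval 1 = f.eval 1 * star (f.eval 1) := by
    rw [hF, eval_mul, ← hstz, ← Polynomial.eval₂_at_one, ← eval_map]
  have h3 : norm (f.eval 1) = 2 := by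
    have h4 : algebraMap ℚ K1 (norm (f.eval 1)) = algebraMap ℚ K1 2 := by
      have h5 : algebraMap ℚ K1 (norm (f.eval 1)) = f.eval 1 * star (f.eval 1) :=
        algebraMap_norm_eq_mul_star _
      rw [h5, ← h2, h1, map_ofNat]
    exact (algebraMap ℚ K1).injective h4
  exact no_norm_two _ h3

/-- `X ^ (2 ^ j) + c ^ (2 ^ j)` -/
lemma irr_scale' (j : ℕ) (c : K1) (hc : c ≠ 0) : Irreducible (X ^ (2 ^ j) + C (c ^ (2 ^ j)) : K1[X]) := by
  let _ : Invertible c⁻¹ := invertibleOfNonzero (inv_ne_zero hc)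
  have h1 : Irreducible (algEquivCMulXAddC c⁻¹ 0 (X ^ (2 ^ j) + 1 : K1[X])) :=
    (MulEquiv.irreducible_iff (algEquivCMulXAddC c⁻¹ (0 : K1))).2 (irr_cyc' j)
  have h2 : algEquivCMulXAddC c⁻¹ 0 (X ^ (2 ^ j) + 1 : K1[X]) =
      C (c⁻¹ ^ (2 ^ j)) * (X ^ (2 ^ j) + C (c ^ (2 ^ j))) := by
    simp only [algEquivCMulXAddC_apply, map_add, map_pow, aeval_X, map_one, map_zero, add_zero,
      mul_add, mul_pow]
    rw [← mul_pow (C c⁻¹) (C c), ← Polynomial.C_mul, inv_mul_cancel₀ hc, Polynomial.C_1, one_pow]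
  rw [h2] at h1
  have hu : IsUnit (C (c⁻¹ ^ (2 ^ j)) : K1[X]) := isUnit_C.2 (IsUnit.mk0 _ (pow_ne_zero _ (inv_ne_zero hc)))
  exact (irreducible_isUnit_mul hu).1 h1

/-- `X ^ q + ω ^ (2 ^ m)` for `1 ≤ q ≤ 2 ^ m` -/
theorem irr_two (m q : ℕ) (hq : 0 < q) (hqm : q ≤ 2 ^ m) :
    Irreducible (X ^ q - C (-ω ^ (2 ^ m)) : K1[X]) := by
  obtain ⟨j, q', hq', hqj⟩ := Nat.exists_eq_two_pow_mul_odd hq.ne'
  have hjm : j ≤ m := by
    by_contra hcon
    push Not at hcon
    have h1 : 2 ^ m < 2 ^ j := Nat.pow_lt_pow_right (by norm_num) hcon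
    have h2 : 2 ^ j ≤ q := by rw [hqj]; exact Nat.le_mul_of_pos_right _ hq'.pos
    omega
  have h0 : Irreducible (X ^ (2 ^ j) - C (-ω ^ (2 ^ m)) : K1[X]) := by
    have := irr_scale' j (ω ^ (2 ^ (m - j))) (pow_ne_zero _ om_ne)
    rwa [← pow_mul, ← pow_add, Nat.sub_add_cancel hjm, ← sub_neg_eq_add, ← Polynomial.C_neg] at this
  have := Pool.Agent.J4.H7.FG.irr_crit q' (2 ^ j) (by positivity) (-ω ^ (2 ^ m) : K1) h0 hq' (by
    intro p hp hpq c hc
    have h1 : p ∣ 2 ^ m := by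
      refine (root_dvd p (2 ^ m) hp.pos c ?_).1
      rw [hc, neg_neg]
      rcases neg_one_pow_eq_or K1 (2 ^ j) with h | h <;> rw [h] <;> simp
    have h2 : p = 2 := (Nat.prime_dvd_prime_iff_eq hp Nat.prime_two).1 (hp.dvd_of_dvd_pow h1)
    rw [h2] at hpq
    exact (Nat.not_even_iff_odd.2 hq') (even_iff_two_dvd.2 hpq))
  rwa [mul_comm q', ← hqj] at this

end Pool.Agent.J4.H7.FB
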