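import Pool.Agent.J4.H7.FB.Alt
import Pool.Agent.J4.H7.FB.Irr2

/-!
# Common divisors of sparse combinations of Fibonacci numbers and `F_p`, `L_p`, `L_(2^m)`
-/

set_option autoImplicit false

namespace Pool.Agent.J4.H7.FB

open Pool.Agent.N449.SQ QuadraticAlgebra Polynomial Finset

theorem U_one (i : ℕ) : U 1 i = Nat.fib i := by
  induction i using Nat.strong_induction_on with
  | _ i ih =>
    match i with
    | 0 => simp [U]
    | 1 => simp [U]
    | i + 2 =>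
      rw [U, ih (i + 1) (by omega), ih i (by omega), Nat.fib_add_two]
      push_cast
      ring

theorem V_one (p : ℕ) (hp : 0 < p) : V 1 p = Nat.fib (p - 1) + Nat.fib (p + 1) := by
  obtain ⟨q, rfl⟩ := Nat.exists_eq_add_of_lt hp
  rw [V_eq, U_one, U_one]
  simp only [zero_add, Nat.add_sub_cancel]
  rw [show q + 1 + 1 = q + 2 from rfl, Nat.fib_add_two]
  push_cast
  ring

theorem eps_one : eps 1 = Real.goldenRatio := by
  unfold eps Real.goldenRatio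
  norm_num

lemma eps_lt_two : eps 1 < 2 := by
  have := eps_lt (a := 1) le_rfl
  norm_num at this
  exact this

lemma int_dvd {m n : ℤ} (h : (m : R1) ∣ (n : R1)) : m ∣ n := by
  obtain ⟨z, hz⟩ := h
  have h2 := congrArg QuadraticAlgebra.re hz
  simp only [re_mul, re_intCast, im_intCast, Int.cast_id] at h2
  exact ⟨z.re, by linarith⟩

lemma dl_ne : dl 1 ≠ 0 := by
  intro h
  have := congrArg QuadraticAlgebra.im h
  simp [dl] at this

lemma dl_sq : dl 1 * dl 1 = ((5 : ℤ) : R1) := by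
  ext <;> simp [dl]

lemma fib_le (n : ℕ) : Nat.fib n ≤ 2 ^ n := by
  induction n using Nat.strong_induction_on with
  | _ n ih =>
    match n with
    | 0 => simp
    | 1 => simp
    | n + 2 =>
      rw [Nat.fib_add_two]
      have h1 := ih n (by omega)
      have h2 := ih (n + 1) (by omega)
      have e1 : 2 ^ (n + 2) = 4 * 2 ^ n := by ring
      have e2 : 2 ^ (n + 1) = 2 * 2 ^ n := by ring
      omega

/-- the coefficients of the conjugate exponents -/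
noncomputable def cj (c : R1) (a : ℕ) : R1 := -((-1) ^ a * star c)

lemma hs_cj (c : R1) (a : ℕ) : hs 1 (cj c a) = hs 1 c := by
  unfold cj
  rw [hs_neg]
  rcases neg_one_pow_eq_or R1 a with h | h
  · rw [h, one_mul, hs_star]
  · rw [h, neg_one_mul, hs_neg, hs_star]

/-- representation in base `φ` -/
lemma repr {K : ℕ} (u u' : Fin K → ℤ) (a : Fin K → ℕ) :
    ((∑ i, (u i * Nat.fib (a i) + u' i * Nat.fib (a i + 1)) : ℤ) : R1) * dl 1 =
      ∑ i, ((⟨u i, u' i⟩ : R1) * w 1 (a i) + cj ⟨u i, u' i⟩ (a i) * w 1 (-(a i))) := by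
  push_cast
  rw [Finset.sum_mul]
  apply Finset.sum_congr rfl
  intro i _
  have h1 := sub_star' 1 ((⟨u i, u' i⟩ : R1) * w 1 (a i))
  rw [mul_w_im, U_one, U_one] at h1
  push_cast at h1
  rw [← h1, star_mul', star_w, cj]
  ring

lemma hsum {K : ℕ} (u u' : Fin K → ℤ) (a : Fin K → ℕ) :
    ∑ i, (hs 1 (⟨u i, u' i⟩ : R1) + hs 1 (cj ⟨u i, u' i⟩ (a i))) ≤ 2 * ((∑ i, (|u i| + 2 * |u' i|) : ℤ) : ℝ) := by
  push_cast
  rw [Finset.mul_sum]
  apply Finset.sum_le_sum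
  intro i _
  rw [hs_cj]
  have h1 := hs_pair (a := 1) le_rfl (u i) (u' i)
  push_cast at h1
  linarith

lemma one_le_U {K : ℕ} (u u' : Fin K → ℤ) (a : Fin K → ℕ) (M : ℤ)
    (h : ¬ M ∣ ∑ i, (u i * Nat.fib (a i) + u' i * Nat.fib (a i + 1))) : 1 ≤ ∑ i, (|u i| + 2 * |u' i|) := by
  by_contra hcon
  push Not at hcon
  have h0 : ∑ i, (|u i| + 2 * |u' i|) = 0 := le_antisymm (by omega) (Finset.sum_nonneg fun i _ => by positivity)
  rw [Finset.sum_eq_zero_iff_of_nonneg fun i _ => by positivity] at h0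
  apply h
  rw [Finset.sum_eq_zero]
  · exact dvd_zero _
  · intro i hi
    have h1 := h0 i hi
    have h2 := abs_nonneg (u i)
    have h3 := abs_nonneg (u' i)
    have h4 : |u i| = 0 := by linarith
    have h5 : |u' i| = 0 := by linarith
    rw [abs_eq_zero.1 h4, abs_eq_zero.1 h5]
    ring

/-- numbers `e` dividing `w (2 n) + 1` -/
theorem core_neg (n K t : ℕ) (hn : 0 < n) (ht : 2 ≤ t) (u u' : Fin K → ℤ) (a : Fin K → ℕ) (e : ℕ) (D : ℤ)
    (hD : D = ∑ i, (u i * Nat.fib (a i) + u' i * Nat.fib (a i + 1)))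
    (he : (e : R1) ∣ w 1 ((2 * n : ℕ) : ℤ) + 1) (heD : (e : ℤ) ∣ D)
    (hnd : ¬ w 1 ((2 * n : ℕ) : ℤ) + 1 ∣ (D : R1) * dl 1) :
    ∃ q : ℕ, 0 < q ∧ q ≤ t ^ K ∧ (Irreducible (X ^ q - C (-ω ^ (2 * n)) : K1[X]) →
      (e : ℝ) ≤ (2 * ((∑ i, (|u i| + 2 * |u' i|) : ℤ) : ℝ) * eps 1 ^ (2 * n / (t * q) + 1)) ^ q) := by
  have h1 : w 1 ((2 * n : ℕ) : ℤ) - (((-1 : ℤˣ) : ℤ) : R1) = w 1 ((2 * n : ℕ) : ℤ) + 1 := by
    push_cast; ring
  have hrep := repr u u' a
  rw [← hD] at hrep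
  obtain ⟨q, hq, hqt, h⟩ := alt (2 * n) K t (by omega) ht (-1) (fun i => ⟨u i, u' i⟩)
    (fun i => cj ⟨u i, u' i⟩ (a i)) (fun i => (a i : ℤ)) (Ideal.span {(e : R1)})
    (by rw [h1, Ideal.mem_span_singleton]; exact he)
    (by
      rw [← hrep, Ideal.mem_span_singleton]
      obtain ⟨z, hz⟩ := heD
      refine Dvd.dvd.mul_right ⟨(z : R1), ?_⟩ _
      rw [hz]; push_cast; rfl)
    (by rw [h1, ← hrep]; exact hnd)
  refine ⟨q, hq, hqt, fun hirr => ?_⟩
  obtain ⟨x, hxI, hx0, hx⟩ := h (by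
    have : (((-1 : ℤˣ) : ℤ) : K1) * ω ^ (2 * n) = -ω ^ (2 * n) := by push_cast; ring
    rw [this]; exact hirr)
  rw [Ideal.mem_span_singleton] at hxI
  obtain ⟨y, rfl⟩ := hxI
  obtain ⟨B, hB⟩ : ∃ B : ℝ, B = (2 * ((∑ i, (|u i| + 2 * |u' i|) : ℤ) : ℝ) * eps 1 ^ (2 * n / (t * q) + 1)) ^ q := ⟨_, rfl⟩
  have hle : ((∑ i, (hs 1 (⟨u i, u' i⟩ : R1) + hs 1 (cj ⟨u i, u' i⟩ (a i)))) * eps 1 ^ (2 * n / (t * q) + 1)) ^ q ≤ B := by
    rw [hB]
    apply pow_le_pow_left₀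
    · apply mul_nonneg (Finset.sum_nonneg fun i _ => add_nonneg (hs_nonneg _ _) (hs_nonneg _ _))
      exact pow_nonneg (eps_pos 1).le _
    · exact mul_le_mul_of_nonneg_right (hsum u u' a) (pow_nonneg (eps_pos 1).le _)
  have hx1 := (hx (s₁ 1) emb_one.1 emb_one.2).trans hle
  have hx2 := (hx (s₂ 1) emb_two.1 emb_two.2).trans hle
  rw [← hB]
  have hy0 : y ≠ 0 := by rintro rfl; simp at hx0
  have hy := one_le_abs (a := 1) le_rfl hy0
  rw [map_mul, abs_mul, map_natCast, Nat.abs_cast] at hx1 hx2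
  have hB0 : 0 ≤ B := le_trans (by positivity) hx1
  have h2 : (e : ℝ) ^ 2 ≤ B ^ 2 := by
    calc (e : ℝ) ^ 2 = (e : ℝ) ^ 2 * 1 := by ring
      _ ≤ (e : ℝ) ^ 2 * (|s₁ 1 y| * |s₂ 1 y|) := mul_le_mul_of_nonneg_left hy (by positivity)
      _ = ((e : ℝ) * |s₁ 1 y|) * ((e : ℝ) * |s₂ 1 y|) := by ring
      _ ≤ B * B := mul_le_mul hx1 hx2 (by positivity) hB0
      _ = B ^ 2 := by ring
  exact (sq_le_sq₀ (by positivity) hB0).1 h2

/-- arithmetic of the bound -/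
lemma arith (U : ℝ) (hU : 1 ≤ U) (N t q K : ℕ) (ht : 0 < t) (hq : 0 < q) (hqK : q ≤ t ^ K) :
    (2 * U * eps 1 ^ (N / (t * q) + 1)) ^ q ≤ (4 * U) ^ (t ^ K) * eps 1 ^ (N / t) := by
  have he0 := eps_pos 1
  have he1 := one_lt_eps (a := 1) le_rfl
  have he2 := eps_lt_two
  calc (2 * U * eps 1 ^ (N / (t * q) + 1)) ^ q = (2 * U * eps 1) ^ q * eps 1 ^ (q * (N / (t * q))) := by
        rw [pow_succ, show 2 * U * (eps 1 ^ (N / (t * q)) * eps 1) = (2 * U * eps 1) * eps 1 ^ (N / (t * q)) by ring,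
          mul_pow, ← pow_mul, mul_comm q]
    _ ≤ (4 * U) ^ q * eps 1 ^ (N / t) := by
        apply mul_le_mul
        · apply pow_le_pow_left₀ (by positivity)
          nlinarith
        · apply pow_le_pow_right₀ he1.le
          rw [← Nat.div_div_eq_div_mul]
          exact Nat.mul_div_le _ _
        · positivity
        · positivity
    _ ≤ (4 * U) ^ (t ^ K) * eps 1 ^ (N / t) := by
        apply mul_le_mul_of_nonneg_right _ (by positivity)
        exact pow_le_pow_right₀ (by linarith) hqK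

lemma w_two_mul (n : ℕ) : w 1 ((2 * n : ℕ) : ℤ) = w 1 (n : ℤ) * w 1 (n : ℤ) := by
  rw [← w_add]; congr 1; push_cast; ring

lemma w_mul_neg (n : ℤ) : w 1 n * w 1 (-n) = 1 := by rw [← w_add, add_neg_cancel, w_zero]

/-- **Fibonacci numbers** -/
theorem gcd_fib (p : ℕ) (hp : p.Prime) (hp2 : p ≠ 2) (K t : ℕ) (ht : 0 < t) (u u' : Fin K → ℤ) (a : Fin K → ℕ)
    (D : ℤ) (hD : D = ∑ i, (u i * Nat.fib (a i) + u' i * Nat.fib (a i + 1))) (hF : ¬ (Nat.fib p : ℤ) ∣ D) :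
    (D.gcd (Nat.fib p) : ℝ) ≤ (4 * ((∑ i, (|u i| + 2 * |u' i|) : ℤ) : ℝ)) ^ (t ^ K) * eps 1 ^ (2 * p / t) := by
  have he1 := one_lt_eps (a := 1) le_rfl
  have he0 := eps_pos 1
  have hU : (1 : ℝ) ≤ ((∑ i, (|u i| + 2 * |u' i|) : ℤ) : ℝ) := by
    exact_mod_cast one_le_U u u' a (Nat.fib p : ℤ) (by rw [← hD]; exact hF)
  obtain ⟨U, hUd⟩ : ∃ U : ℝ, U = ((∑ i, (|u i| + 2 * |u' i|) : ℤ) : ℝ) := ⟨_, rfl⟩
  rw [← hUd] at hU ⊢
  obtain ⟨e, he⟩ : ∃ e : ℕ, e = D.gcd (Nat.fib p) := ⟨_, rfl⟩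
  rw [← he]
  have heD : (e : ℤ) ∣ D := by rw [he]; exact Int.gcd_dvd_left _ _
  have heF : (e : ℤ) ∣ (Nat.fib p : ℤ) := by rw [he]; exact Int.gcd_dvd_right _ _
  have hFpos : 0 < Nat.fib p := Nat.fib_pos.2 hp.pos
  have heFn : e ∣ Nat.fib p := Int.natCast_dvd_natCast.1 heF
  have heF2 : (e : ℝ) ≤ 2 ^ p := by
    have h1 : e ≤ 2 ^ p := (Nat.le_of_dvd hFpos heFn).trans (fib_le p)
    exact_mod_cast h1
  have hodd : Odd p := hp.odd_of_ne_two hp2
  have hw : w 1 ((2 * p : ℕ) : ℤ) + 1 = w 1 (p : ℤ) * ((Nat.fib p : R1) * dl 1) := by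
    have h1 := sub_star' 1 (w 1 (p : ℤ))
    rw [(w_re_im 1 p).1, U_one, star_w, hodd.neg_one_pow] at h1
    push_cast at h1
    rw [← h1, w_two_mul]
    linear_combination (-1 : R1) * w_mul_neg (p : ℤ)
  have hqbound : ∀ q : ℕ, p ≤ q → q ≤ t ^ K → (e : ℝ) ≤ (4 * U) ^ (t ^ K) * eps 1 ^ (2 * p / t) := by
    intro q h1 h2
    calc (e : ℝ) ≤ 2 ^ p := heF2
      _ ≤ (4 * U) ^ p := pow_le_pow_left₀ (by norm_num) (by linarith) _
      _ ≤ (4 * U) ^ (t ^ K) := pow_le_pow_right₀ (by linarith) (h1.trans h2)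
      _ = (4 * U) ^ (t ^ K) * 1 := by ring
      _ ≤ _ := mul_le_mul_of_nonneg_left (one_le_pow₀ he1.le) (by positivity)
  rcases (by omega : t = 1 ∨ 2 ≤ t) with ht1 | ht2
  · subst ht1
    rw [one_pow, pow_one, Nat.div_one]
    calc (e : ℝ) ≤ 2 ^ p := heF2
      _ ≤ (eps 1 ^ 2) ^ p := by
          apply pow_le_pow_left₀ (by norm_num)
          have := eps_sq 1
          push_cast at this
          nlinarith
      _ = 1 * eps 1 ^ (2 * p) := by rw [← pow_mul, one_mul]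
      _ ≤ _ := mul_le_mul_of_nonneg_right (by linarith) (by positivity)
  obtain ⟨q, hq, hqt, h⟩ := core_neg p K t hp.pos ht2 u u' a e D hD
    (by
      rw [hw]
      apply Dvd.dvd.mul_left
      apply Dvd.dvd.mul_right
      exact Nat.cast_dvd_cast heFn)
    heD
    (by
      rintro ⟨z, hz⟩
      rw [hw] at hz
      apply hF
      apply int_dvd
      refine ⟨w 1 (p : ℤ) * z, mul_right_cancel₀ dl_ne ?_⟩
      rw [hz]; push_cast; ring)
  rcases Nat.lt_or_ge q p with hqp | hqp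
  · have hcop : Nat.Coprime q p := by
      rw [Nat.coprime_comm]
      exact (Nat.Prime.coprime_iff_not_dvd hp).2 fun hd => by
        have := Nat.le_of_dvd hq hd
        omega
    have h1 := h (irr_neg q p hq hcop)
    rw [← hUd] at h1
    exact h1.trans (arith U hU (2 * p) t q K ht hq hqt)
  · exact hqbound q hqp hqt

lemma V_mod_five (n : ℕ) : (V 1 n % 5 = 2 ∧ V 1 (n + 1) % 5 = 1) ∨ (V 1 n % 5 = 1 ∧ V 1 (n + 1) % 5 = 3) ∨
    (V 1 n % 5 = 3 ∧ V 1 (n + 1) % 5 = 4) ∨ (V 1 n % 5 = 4 ∧ V 1 (n + 1) % 5 = 2) := by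
  induction n with
  | zero => left; simp [V]
  | succ n ih =>
    have h : V 1 (n + 1 + 1) = V 1 (n + 1) + V 1 n := by
      rw [show n + 1 + 1 = n + 2 from rfl, V]; ring
    rw [h]
    omega

lemma V_mod_two (n : ℕ) : (V 1 (3 * n) % 2 = 0 ∧ V 1 (3 * n + 1) % 2 = 1) ∧ V 1 (3 * n + 2) % 2 = 1 := by
  have hr : ∀ k, V 1 (k + 2) = V 1 (k + 1) + V 1 k := fun k => by rw [V]; ring
  induction n with
  | zero => simp [V]
  | succ n ih =>
    have h1 := hr (3 * n + 1)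
    have h2 := hr (3 * n + 2)
    have h3 := hr (3 * n + 3)
    rw [show 3 * n + 1 + 2 = 3 * (n + 1) by ring, show 3 * n + 1 + 1 = 3 * n + 2 by ring] at h1
    rw [show 3 * n + 2 + 2 = 3 * (n + 1) + 1 by ring, show 3 * n + 2 + 1 = 3 * (n + 1) by ring] at h2
    rw [show 3 * n + 3 + 2 = 3 * (n + 1) + 2 by ring, show 3 * n + 3 + 1 = 3 * (n + 1) + 1 by ring,
      show 3 * n + 3 = 3 * (n + 1) by ring] at h3
    omega

lemma isCoprime_five (n : ℕ) : IsCoprime (V 1 n) 5 := by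
  have h5 : Prime (5 : ℤ) := Int.prime_iff_natAbs_prime.2 (by norm_num)
  apply IsCoprime.symm
  rw [Irreducible.coprime_iff_not_dvd h5.irreducible]
  intro h
  have := V_mod_five n
  omega

lemma V_pos (n : ℕ) : 0 < V 1 n ∧ 0 < V 1 (n + 1) := by
  induction n with
  | zero => simp [V]
  | succ n ih =>
    have h : V 1 (n + 1 + 1) = V 1 (n + 1) + V 1 n := by
      rw [show n + 1 + 1 = n + 2 from rfl, V]; ring
    rw [h]
    omega

lemma V_le (n : ℕ) (hn : 0 < n) : V 1 n ≤ 4 ^ n := by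
  rw [V_one n hn]
  have h1 := fib_le (n - 1)
  have h2 := fib_le (n + 1)
  have e1 : 2 ^ (n + 1) = 4 * 2 ^ (n - 1) := by
    obtain ⟨m, rfl⟩ := Nat.exists_eq_add_of_lt hn
    simp only [zero_add, Nat.add_sub_cancel]
    ring
  have e2 : 4 ^ n = 4 * 4 ^ (n - 1) := by
    obtain ⟨m, rfl⟩ := Nat.exists_eq_add_of_lt hn
    simp only [zero_add, Nat.add_sub_cancel]
    ring
  have e3 : 2 ^ (n - 1) ≤ 4 ^ (n - 1) := Nat.pow_le_pow_left (by norm_num) _
  have e4 : 1 ≤ 2 ^ (n - 1) := Nat.one_le_two_pow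
  have h3 : Nat.fib (n - 1) + Nat.fib (n + 1) ≤ 4 ^ n := by
    rcases (by omega : n = 1 ∨ 2 ≤ n) with h | h
    · subst h; decide
    · have e5 : 2 * 2 ^ (n - 1) ≤ 4 ^ (n - 1) := by
        obtain ⟨m, rfl⟩ := Nat.exists_eq_add_of_le h
        have e6 : 2 + m - 1 = m + 1 := by omega
        rw [e6]
        have : 2 ^ m ≤ 4 ^ m := Nat.pow_le_pow_left (by norm_num) _
        calc 2 * 2 ^ (m + 1) = 4 * 2 ^ m := by ring
          _ ≤ 4 * 4 ^ m := Nat.mul_le_mul_left _ this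
          _ = 4 ^ (m + 1) := by ring
      omega
  exact_mod_cast h3

lemma V_le_eps (n : ℕ) : (V 1 n : ℝ) ≤ 2 * eps 1 ^ n := by
  have h1 := congrArg (s₁ 1) (w_add_star 1 n)
  rw [map_add, s₁_star, s₁_w, map_intCast, zpow_natCast] at h1
  have h2 := (le_abs_self (s₂ 1 (w 1 (n : ℤ)))).trans (emb_two.2 (n : ℤ))
  rw [Nat.abs_cast, zpow_natCast] at h2
  linarith

/-- **Lucas numbers `L_(2^m)`** -/
theorem gcd_lucas_two (m K t : ℕ) (ht : 0 < t) (u u' : Fin K → ℤ) (a : Fin K → ℕ)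
    (D : ℤ) (hD : D = ∑ i, (u i * Nat.fib (a i) + u' i * Nat.fib (a i + 1))) (hF : ¬ V 1 (2 ^ m) ∣ D) :
    (D.gcd (V 1 (2 ^ m)) : ℝ) ≤ (4 * ((∑ i, (|u i| + 2 * |u' i|) : ℤ) : ℝ)) ^ (t ^ K) * eps 1 ^ (2 * 2 ^ m / t) := by
  have he1 := one_lt_eps (a := 1) le_rfl
  have he0 := eps_pos 1
  have hU : (1 : ℝ) ≤ ((∑ i, (|u i| + 2 * |u' i|) : ℤ) : ℝ) := by
    exact_mod_cast one_le_U u u' a (V 1 (2 ^ m)) (by rw [← hD]; exact hF)
  obtain ⟨U, hUd⟩ : ∃ U : ℝ, U = ((∑ i, (|u i| + 2 * |u' i|) : ℤ) : ℝ) := ⟨_, rfl⟩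
  rw [← hUd] at hU ⊢
  have hm0 : m ≠ 0 := by
    rintro rfl
    apply hF
    simp [V]
  obtain ⟨n, hn⟩ : ∃ n, n = 2 ^ m := ⟨_, rfl⟩
  have hn0 : 0 < n := by rw [hn]; positivity
  have hev : Even n := by rw [hn]; exact (Nat.even_pow.2 ⟨even_two, hm0⟩)
  rw [← hn] at hF ⊢
  obtain ⟨e, he⟩ : ∃ e : ℕ, e = D.gcd (V 1 n) := ⟨_, rfl⟩
  rw [← he]
  have heD : (e : ℤ) ∣ D := by rw [he]; exact Int.gcd_dvd_left _ _
  have heF : (e : ℤ) ∣ V 1 n := by rw [he]; exact Int.gcd_dvd_right _ _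
  have heF2 : (e : ℝ) ≤ 4 ^ n := by
    have h1 : (e : ℤ) ≤ 4 ^ n := (Int.le_of_dvd (V_pos n).1 heF).trans (V_le n hn0)
    exact_mod_cast h1
  have hw : w 1 ((2 * n : ℕ) : ℤ) + 1 = w 1 (n : ℤ) * (V 1 n : R1) := by
    have h1 := w_add_star 1 n
    rw [star_w, hev.neg_one_pow] at h1
    rw [← h1, w_two_mul]
    linear_combination (-1 : R1) * w_mul_neg (n : ℤ)
  rcases (by omega : t = 1 ∨ 2 ≤ t) with ht1 | ht2
  · subst ht1
    rw [one_pow, pow_one, Nat.div_one]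
    have h1 : (e : ℝ) ≤ V 1 n := by
      have : (e : ℤ) ≤ V 1 n := Int.le_of_dvd (V_pos n).1 heF
      exact_mod_cast this
    calc (e : ℝ) ≤ 2 * eps 1 ^ n := h1.trans (V_le_eps n)
      _ ≤ (4 * U) * eps 1 ^ (2 * n) := by
          apply mul_le_mul (by linarith) _ (by positivity) (by positivity)
          exact pow_le_pow_right₀ he1.le (by omega)
  obtain ⟨q, hq, hqt, h⟩ := core_neg n K t hn0 ht2 u u' a e D hD
    (by
      rw [hw]
      apply Dvd.dvd.mul_left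
      obtain ⟨z, hz⟩ := heF
      exact ⟨(z : R1), by rw [hz]; push_cast; rfl⟩)
    heD
    (by
      rintro ⟨z, hz⟩
      rw [hw] at hz
      apply hF
      have h5 : V 1 n ∣ D * 5 := by
        apply int_dvd
        refine ⟨w 1 (n : ℤ) * z * dl 1, ?_⟩
        push_cast
        have e1 := dl_sq
        push_cast at e1
        rw [← e1]
        linear_combination dl 1 * hz
      exact (isCoprime_five n).dvd_of_dvd_mul_right h5)
  rcases Nat.lt_or_ge (2 * n) q with hqp | hqp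
  · calc (e : ℝ) ≤ 4 ^ n := heF2
      _ = 2 ^ (2 * n) := by rw [pow_mul]; norm_num
      _ ≤ (4 * U) ^ (2 * n) := pow_le_pow_left₀ (by norm_num) (by linarith) _
      _ ≤ (4 * U) ^ (t ^ K) := pow_le_pow_right₀ (by linarith) (hqp.le.trans hqt)
      _ = (4 * U) ^ (t ^ K) * 1 := by ring
      _ ≤ _ := mul_le_mul_of_nonneg_left (one_le_pow₀ he1.le) (by positivity)
  · have hirr := irr_two (m + 1) q hq (by rw [pow_succ, ← hn]; omega)
    have h1 := h (by rw [pow_succ, ← hn, mul_comm n] at hirr; exact hirr)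
    rw [← hUd] at h1
    exact h1.trans (arith U hU (2 * n) t q K ht hq hqt)

/-- numbers `e` dividing `L_p`, `p` odd -/
theorem core_pos (n K t : ℕ) (hn : Odd n) (ht : 2 ≤ t) (u u' : Fin K → ℤ) (a : Fin K → ℕ) (e : ℕ) (D : ℤ)
    (hD : D = ∑ i, (u i * Nat.fib (a i) + u' i * Nat.fib (a i + 1)))
    (he : (e : ℤ) ∣ V 1 n) (heD : (e : ℤ) ∣ D)
    (hnd : ¬ w 1 (n : ℤ) - 1 ∣ (D : R1) * dl 1) :
    ∃ q : ℕ, 0 < q ∧ q ≤ t ^ K ∧ (Irreducible (X ^ q - C (ω ^ n) : K1[X]) →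
      (e : ℝ) ≤ ((2 * ((∑ i, (|u i| + 2 * |u' i|) : ℤ) : ℝ) * eps 1 ^ (n / (t * q) + 1)) ^ q) ^ 2) := by
  have h1 : w 1 (n : ℤ) - (((1 : ℤˣ) : ℤ) : R1) = w 1 (n : ℤ) - 1 := by
    push_cast; ring
  have hrep := repr u u' a
  rw [← hD] at hrep
  obtain ⟨q, hq, hqt, h⟩ := alt n K t hn.pos ht 1 (fun i => ⟨u i, u' i⟩)
    (fun i => cj ⟨u i, u' i⟩ (a i)) (fun i => (a i : ℤ)) (Ideal.span {(e : R1), w 1 (n : ℤ) - 1})
    (by rw [h1]; exact Ideal.subset_span (by simp))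
    (by
      rw [← hrep]
      apply Ideal.mul_mem_right
      obtain ⟨z, hz⟩ := heD
      rw [hz]
      push_cast
      exact Ideal.mul_mem_right _ _ (Ideal.subset_span (by simp)))
    (by rw [h1, ← hrep]; exact hnd)
  refine ⟨q, hq, hqt, fun hirr => ?_⟩
  obtain ⟨x, hxI, hx0, hx⟩ := h (by
    have : (((1 : ℤˣ) : ℤ) : K1) * ω ^ n = ω ^ n := by push_cast; ring
    rw [this]; exact hirr)
  rw [Ideal.mem_span_pair] at hxI
  obtain ⟨y, z, hyz⟩ := hxI
  -- the norm of `x` is divisible by `e`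
  have hnorm : ∀ x : R1, ((norm x : ℤ) : R1) = x * star x := by
    intro x
    have := algebraMap_norm_eq_mul_star x
    rw [← this]
    rfl
  have hdvd : (e : ℤ) ∣ norm x := by
    apply int_dvd
    rw [hnorm, ← hyz]
    have e1 : (w 1 (n : ℤ) - 1) * star (w 1 (n : ℤ) - 1) = -(V 1 n : R1) := by
      have h2 := w_add_star 1 n
      have h3 := w_mul_neg (n : ℤ)
      rw [star_w, hn.neg_one_pow] at h2
      rw [star_sub, star_one, star_w, hn.neg_one_pow, ← h2]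
      linear_combination -h3
    obtain ⟨v, hv⟩ := he
    rw [hv] at e1
    push_cast at e1 ⊢
    refine ⟨y * star (y * (e : R1) + z * (w 1 (n : ℤ) - 1)) + z * (w 1 (n : ℤ) - 1) * star y - z * star z * v, ?_⟩
    rw [star_add, star_mul', star_mul', star_natCast]
    linear_combination (z * star z) * e1
  have hn0 : norm x ≠ 0 := norm_ne_zero le_rfl hx0
  have hle1 : (e : ℤ) ≤ |norm x| := Int.le_of_dvd (abs_pos.2 hn0) ((dvd_abs _ _).2 hdvd)
  have hle2 : (e : ℝ) ≤ |s₁ 1 x| * |s₂ 1 x| := by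
    rw [← abs_mul, ← norm_eq]
    exact_mod_cast hle1
  obtain ⟨B, hB⟩ : ∃ B : ℝ, B = (2 * ((∑ i, (|u i| + 2 * |u' i|) : ℤ) : ℝ) * eps 1 ^ (n / (t * q) + 1)) ^ q := ⟨_, rfl⟩
  have hle : ((∑ i, (hs 1 (⟨u i, u' i⟩ : R1) + hs 1 (cj ⟨u i, u' i⟩ (a i)))) * eps 1 ^ (n / (t * q) + 1)) ^ q ≤ B := by
    rw [hB]
    apply pow_le_pow_left₀
    · apply mul_nonneg (Finset.sum_nonneg fun i _ => add_nonneg (hs_nonneg _ _) (hs_nonneg _ _))
      exact pow_nonneg (eps_pos 1).le _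
    · exact mul_le_mul_of_nonneg_right (hsum u u' a) (pow_nonneg (eps_pos 1).le _)
  have hx1 := (hx (s₁ 1) emb_one.1 emb_one.2).trans hle
  have hx2 := (hx (s₂ 1) emb_two.1 emb_two.2).trans hle
  have hB0 : 0 ≤ B := (abs_nonneg _).trans hx1
  rw [← hB, sq]
  exact hle2.trans (mul_le_mul hx1 hx2 (abs_nonneg _) hB0)

lemma odd_V (n : ℕ) (h : ¬ 3 ∣ n) : V 1 n % 2 = 1 := by
  have h1 := V_mod_two (n / 3)
  have h2 := Nat.div_add_mod n 3
  rcases (by omega : n % 3 = 1 ∨ n % 3 = 2) with h3 | h3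
  · rw [h3] at h2
    rw [h2] at h1
    exact h1.1.2
  · rw [h3] at h2
    rw [h2] at h1
    exact h1.2

/-- **Lucas numbers `L_p`** -/
theorem gcd_lucas (p : ℕ) (hp : p.Prime) (hp2 : p ≠ 2) (K t : ℕ) (ht : 0 < t) (u u' : Fin K → ℤ) (a : Fin K → ℕ)
    (D : ℤ) (hD : D = ∑ i, (u i * Nat.fib (a i) + u' i * Nat.fib (a i + 1))) (hF : ¬ V 1 p ∣ D) :
    (D.gcd (V 1 p) : ℝ) ≤ (4 * ((∑ i, (|u i| + 2 * |u' i|) : ℤ) : ℝ)) ^ (2 * t ^ K) * eps 1 ^ (2 * (p / t)) := by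
  have he1 := one_lt_eps (a := 1) le_rfl
  have he0 := eps_pos 1
  have hU : (1 : ℝ) ≤ ((∑ i, (|u i| + 2 * |u' i|) : ℤ) : ℝ) := by
    exact_mod_cast one_le_U u u' a (V 1 p) (by rw [← hD]; exact hF)
  obtain ⟨U, hUd⟩ : ∃ U : ℝ, U = ((∑ i, (|u i| + 2 * |u' i|) : ℤ) : ℝ) := ⟨_, rfl⟩
  rw [← hUd] at hU ⊢
  obtain ⟨e, he⟩ : ∃ e : ℕ, e = D.gcd (V 1 p) := ⟨_, rfl⟩
  rw [← he]
  have heD : (e : ℤ) ∣ D := by rw [he]; exact Int.gcd_dvd_left _ _
  have heF : (e : ℤ) ∣ V 1 p := by rw [he]; exact Int.gcd_dvd_right _ _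
  have hodd : Odd p := hp.odd_of_ne_two hp2
  have heF1 : (e : ℤ) ≤ V 1 p := Int.le_of_dvd (V_pos p).1 heF
  have heF2 : (e : ℝ) ≤ 4 ^ p := by
    exact_mod_cast heF1.trans (V_le p hp.pos)
  by_cases hp3 : p = 3
  · have h1 : (e : ℝ) ≤ 4 := by
      rw [hp3] at heF1
      have : V 1 3 = 4 := by norm_num [V]
      rw [this] at heF1
      exact_mod_cast heF1
    have h2 : (1 : ℝ) ≤ (4 * U) ^ (2 * t ^ K - 1) := one_le_pow₀ (by linarith)
    have h3 : (4 * U) ^ (2 * t ^ K) = (4 * U) * (4 * U) ^ (2 * t ^ K - 1) := by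
      rw [← pow_succ']
      congr 1
      have : 0 < t ^ K := Nat.pow_pos ht
      omega
    have h4 : (1 : ℝ) ≤ eps 1 ^ (2 * (p / t)) := one_le_pow₀ he1.le
    calc (e : ℝ) ≤ 4 * 1 * 1 := by linarith
      _ ≤ (4 * U) * (4 * U) ^ (2 * t ^ K - 1) * eps 1 ^ (2 * (p / t)) := by
          apply mul_le_mul _ h4 (by norm_num) (by positivity)
          apply mul_le_mul (by linarith) h2 (by norm_num) (by positivity)
      _ = _ := by rw [← h3]
  rcases (by omega : t = 1 ∨ 2 ≤ t) with ht1 | ht2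
  · subst ht1
    rw [one_pow, mul_one, Nat.div_one]
    have h1 : (e : ℝ) ≤ V 1 p := by exact_mod_cast heF1
    calc (e : ℝ) ≤ 2 * eps 1 ^ p := h1.trans (V_le_eps p)
      _ ≤ (4 * U) ^ 2 * eps 1 ^ (2 * p) := by
          apply mul_le_mul (by nlinarith) _ (by positivity) (by positivity)
          exact pow_le_pow_right₀ he1.le (by omega)
  obtain ⟨q, hq, hqt, h⟩ := core_pos p K t hodd ht2 u u' a e D hD heF heD
    (by
      rintro ⟨z, hz⟩
      apply hF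
      obtain ⟨x, hx⟩ : ∃ x : R1, x = w 1 (p : ℤ) := ⟨_, rfl⟩
      obtain ⟨x', hx'⟩ : ∃ x' : R1, x' = w 1 (-(p : ℤ)) := ⟨_, rfl⟩
      have hxx : x * x' = 1 := by rw [hx, hx']; exact w_mul_neg _
      have hL : (V 1 p : R1) = x - x' := by
        rw [← w_add_star, star_w, hodd.neg_one_pow, ← hx, ← hx']; ring
      have hst : star x = -x' := by rw [hx, hx', star_w, hodd.neg_one_pow]; ring
      have hz2 : (D : R1) * dl 1 = (x + 1) * (x' * star z) := by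
        have h1 := congrArg star hz
        rw [← hx, star_mul', star_mul', star_sub, star_one, hst, star_intCast] at h1
        have h2 : star (dl 1) = -dl 1 := by ext <;> simp [dl]
        rw [h2] at h1
        linear_combination -h1 - star z * hxx
      rw [← hx] at hz
      have h10 : V 1 p ∣ D * 10 := by
        apply int_dvd
        refine ⟨x * (z - x' * star z) * dl 1, ?_⟩
        push_cast
        have e1 := dl_sq
        push_cast at e1
        have e2 : (V 1 p : R1) * x = x ^ 2 - 1 := by rw [hL]; linear_combination -hxx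
        calc (D : R1) * 10 = 2 * ((D : R1) * dl 1) * dl 1 := by linear_combination (-2 * (D : R1)) * e1
          _ = ((x + 1) * ((D : R1) * dl 1) - (x - 1) * ((D : R1) * dl 1)) * dl 1 := by ring
          _ = ((x + 1) * ((x - 1) * z) - (x - 1) * ((x + 1) * (x' * star z))) * dl 1 := by
              conv_lhs => rw [show (x + 1) * ((D : R1) * dl 1) = (x + 1) * ((x - 1) * z) by rw [hz],
                show (x - 1) * ((D : R1) * dl 1) = (x - 1) * ((x + 1) * (x' * star z)) by rw [hz2]]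
          _ = ((V 1 p : R1) * x) * ((z - x' * star z) * dl 1) := by rw [e2]; ring
          _ = _ := by ring
      have hc2 : IsCoprime (V 1 p) 2 := by
        have h2 : Prime (2 : ℤ) := Int.prime_two
        apply IsCoprime.symm
        rw [Irreducible.coprime_iff_not_dvd h2.irreducible]
        intro h
        have h3 : ¬ 3 ∣ p := fun h3 => hp3 ((Nat.prime_dvd_prime_iff_eq Nat.prime_three hp).1 h3).symm
        have := odd_V p h3
        omega
      have hc : IsCoprime (V 1 p) 10 := by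
        have := hc2.mul_right (isCoprime_five p)
        norm_num at this
        exact this
      exact hc.dvd_of_dvd_mul_right h10)
  rcases Nat.lt_or_ge q p with hqp | hqp
  · have hcop : Nat.Coprime q p := by
      rw [Nat.coprime_comm]
      exact (Nat.Prime.coprime_iff_not_dvd hp).2 fun hd => by
        have := Nat.le_of_dvd hq hd
        omega
    have h1 := h (irr_pos q p hq hcop)
    rw [← hUd] at h1
    have h2 := arith U hU p t q K ht hq hqt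
    calc (e : ℝ) ≤ _ := h1
      _ ≤ ((4 * U) ^ (t ^ K) * eps 1 ^ (p / t)) ^ 2 := pow_le_pow_left₀ (by positivity) h2 2
      _ = _ := by rw [mul_pow, ← pow_mul, ← pow_mul, mul_comm (t ^ K), mul_comm (p / t)]
  · calc (e : ℝ) ≤ 4 ^ p := heF2
      _ ≤ (4 * U) ^ p := pow_le_pow_left₀ (by norm_num) (by linarith) _
      _ ≤ (4 * U) ^ (2 * t ^ K) := pow_le_pow_right₀ (by linarith) (by omega)
      _ = (4 * U) ^ (2 * t ^ K) * 1 := by ring
      _ ≤ _ := mul_le_mul_of_nonneg_left (one_le_pow₀ he1.le) (by positivity)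

end Pool.Agent.J4.H7.FB
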