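import Pool.Agent.N449.SQ.Final

/-!
# Irreducibility of `X ^ q + ω ^ (2 n)` and `X ^ q - ω ^ n` over `ℚ(√5)`, `q` prime to `n`
-/

set_option autoImplicit false

namespace Pool.Agent.J4.H7.FB

open Pool.Agent.N449.SQ QuadraticAlgebra Polynomial

/-- the field `ℚ(√5)` -/
abbrev K1 := K 1

instance fact1 : Fact (∀ r : ℚ, r ^ 2 ≠ 1 + ((1 : ℤ) : ℚ) * r) := fact le_rfl

lemma hV1 : ∀ (T : ℤ) (r : ℕ), 1 ≤ T → 2 ≤ r → Odd r → V T r ≠ 1 :=
  fun T r hT hr _ h => by have := three_le_V T hT r hr; omega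

/-- the roots of `± ω ^ n` in the field -/
theorem root_dvd (q n : ℕ) (hq : 0 < q) (η : K1) (h : η ^ q = ω ^ n ∨ η ^ q = -ω ^ n) :
    q ∣ n ∧ (η = ω ^ (n / q) ∨ η = -ω ^ (n / q)) := by
  have he0 := eps_pos 1
  have hinj : Function.Injective (t₁ 1) := (t₁ 1).injective
  have hω0 : (ω : K1) ≠ 0 := by
    intro h0
    have := t₁_om 1
    rw [h0, map_zero] at this
    exact he0.ne' this.symm
  have hη0 : η ≠ 0 := by
    rintro rfl
    rw [zero_pow hq.ne'] at h
    rcases h with h | h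
    · exact pow_ne_zero n hω0 h.symm
    · exact pow_ne_zero n hω0 (neg_eq_zero.1 h.symm)
  have hη1 : |t₁ 1 η| ^ q = eps 1 ^ n := by
    rw [← abs_pow, ← map_pow]
    rcases h with h | h
    · rw [h, map_pow, t₁_om, abs_of_pos (pow_pos he0 _)]
    · rw [h, map_neg, abs_neg, map_pow, t₁_om, abs_of_pos (pow_pos he0 _)]
  obtain ⟨g, hg⟩ : ∃ g, g = Nat.gcd q n := ⟨_, rfl⟩
  have hg0 : 0 < g := by rw [hg]; exact Nat.gcd_pos_of_pos_left _ hq
  obtain ⟨r, hr⟩ : g ∣ q := by rw [hg]; exact Nat.gcd_dvd_left _ _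
  obtain ⟨n', hn'⟩ : g ∣ n := by rw [hg]; exact Nat.gcd_dvd_right _ _
  have hcop : Nat.Coprime r n' := by
    have h1 := Nat.coprime_div_gcd_div_gcd (m := q) (n := n) (by rw [← hg]; exact hg0)
    rw [← hg] at h1
    rwa [show q / g = r from by rw [hr]; exact Nat.mul_div_cancel_left _ hg0,
      show n / g = n' from by rw [hn']; exact Nat.mul_div_cancel_left _ hg0] at h1
  have hr0 : 0 < r := by
    rcases Nat.eq_zero_or_pos r with h0 | h0
    · rw [h0, mul_zero] at hr; omega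
    · exact h0
  have hη2 : η ^ r = ω ^ n' ∨ η ^ r = -ω ^ n' := by
    have h1 : (|t₁ 1 η| ^ r) ^ g = (eps 1 ^ n') ^ g := by
      rw [← pow_mul, ← pow_mul, mul_comm r, ← hr, mul_comm n', ← hn', hη1]
    have h2 : |t₁ 1 η| ^ r = eps 1 ^ n' :=
      (pow_left_inj₀ (by positivity) (by positivity) hg0.ne').1 h1
    have h3 : |t₁ 1 (η ^ r)| = |t₁ 1 (ω ^ n')| := by
      rw [map_pow, map_pow, abs_pow, h2, t₁_om, abs_of_pos (pow_pos he0 _)]
    rcases abs_eq_abs.1 h3 with h4 | h4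
    · left; exact hinj h4
    · right; exact hinj (by rw [h4, map_neg])
  rcases (by omega : r = 1 ∨ 2 ≤ r) with hr1 | hr2
  · have hgq : g = q := by rw [hr1, mul_one] at hr; exact hr.symm
    have hnq : n / q = n' := by rw [← hgq, hn']; exact Nat.mul_div_cancel_left _ hg0
    refine ⟨⟨n', by rw [← hgq]; exact hn'⟩, ?_⟩
    rw [hnq]
    rwa [hr1, pow_one] at hη2
  · exfalso
    have hbez : (r : ℤ) * Nat.gcdA r n' + n' * Nat.gcdB r n' = 1 := by
      have := Nat.gcd_eq_gcd_ab r n'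
      rw [hcop] at this
      exact_mod_cast this.symm
    obtain ⟨v, hv⟩ : ∃ v : ℤ, v = Nat.gcdA r n' := ⟨_, rfl⟩
    obtain ⟨u, hu⟩ : ∃ u : ℤ, u = Nat.gcdB r n' := ⟨_, rfl⟩
    rw [← hv, ← hu] at hbez
    refine no_root le_rfl hV1 r hr2 (η ^ u * ω ^ v) ?_
    have e1 : (η ^ u * ω ^ v) ^ r = (η ^ r) ^ u * ω ^ (r * v : ℤ) := by
      rw [mul_pow]
      congr 1
      · rw [← zpow_natCast, ← zpow_natCast, ← zpow_mul, ← zpow_mul, mul_comm]
      · rw [← zpow_natCast, ← zpow_mul, mul_comm]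
    have e2 : (ω ^ n' : K1) ^ u * ω ^ (r * v : ℤ) = ω := by
      rw [← zpow_natCast, ← zpow_mul, ← zpow_add₀ hω0,
        show (n' : ℤ) * u + r * v = 1 by linarith, zpow_one]
    rcases hη2 with h6 | h6
    · left
      rw [e1, h6, e2]
    · rw [e1, h6]
      rcases Int.even_or_odd u with h7 | h7
      · left
        rw [h7.neg_zpow, e2]
      · right
        rw [h7.neg_zpow, neg_mul, e2]

/-- the constant term of a divisor of `X ^ q - c` -/
lemma coeff_zero_pow {F : Type} [Field F] (q : ℕ) (c : F) (f : F[X]) (hf : f.Monic)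
    (hd : f ∣ X ^ q - C c) :
    (f.coeff 0) ^ q = ((-1) ^ f.natDegree) ^ q * c ^ f.natDegree := by
  apply (algebraMap F (AlgebraicClosure F)).injective
  obtain ⟨i, hi⟩ : ∃ i, i = algebraMap F (AlgebraicClosure F) := ⟨_, rfl⟩
  rw [← hi, map_pow, ← coeff_map, map_mul, map_pow, map_pow, map_pow, map_neg, map_one]
  have hs : (f.map i).Splits := IsAlgClosed.splits _
  have hm : (f.map i).Monic := hf.map i
  rw [hs.coeff_zero_eq_prod_roots_of_monic hm, mul_pow, natDegree_map]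
  congr 1
  have h0 : (f.map i).roots.prod ^ q = ((f.map i).roots.map (fun x => x ^ q)).prod := by
    rw [Multiset.prod_map_pow, Multiset.map_id']
  rw [h0]
  have h1 : (f.map i).roots.map (fun x => x ^ q) = (f.map i).roots.map (fun _ => i c) := by
    apply Multiset.map_congr rfl
    intro x hx
    have h2 : (f.map i).eval x = 0 := (mem_roots'.1 hx).2
    obtain ⟨g, hg⟩ := hd
    have h3 := congrArg (fun p => (p.map i).eval x) hg
    simp only [Polynomial.map_mul, eval_mul, h2, zero_mul, Polynomial.map_sub, Polynomial.map_pow, map_X, map_C,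
      eval_sub, eval_pow, eval_X, eval_C] at h3
    exact sub_eq_zero.1 h3
  rw [h1, Multiset.map_const', Multiset.prod_replicate, ← hs.natDegree_eq_card_roots, natDegree_map]

/-- positivity of the constant term -/
lemma coeff_zero_pos (f : ℝ[X]) (hf : f.Monic) (h : ∀ x : ℝ, 0 ≤ x → f.eval x ≠ 0) : 0 < f.coeff 0 := by
  rw [coeff_zero_eq_eval_zero]
  by_contra hcon
  push Not at hcon
  have h0 : f.eval 0 < 0 := lt_of_le_of_ne hcon (h 0 le_rfl)
  by_cases hd : f.natDegree = 0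
  · have : f = 1 := hf.natDegree_eq_zero.1 hd
    rw [this, eval_one] at h0
    linarith
  have ht : Filter.Tendsto (fun x => f.eval x) Filter.atTop Filter.atTop := by
    apply f.tendsto_atTop_of_leadingCoeff_nonneg
    · rw [degree_eq_natDegree hf.ne_zero]
      exact_mod_cast Nat.pos_of_ne_zero hd
    · rw [hf.leadingCoeff]; norm_num
  obtain ⟨y, hy0, hy⟩ := ((Filter.eventually_ge_atTop (0 : ℝ)).and (ht.eventually_ge_atTop 0)).exists
  have hc : ContinuousOn (fun x => f.eval x) (Set.Icc 0 y) := f.continuous.continuousOn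
  obtain ⟨z, hz, hz0⟩ := intermediate_value_Icc hy0 hc ⟨h0.le, hy⟩
  exact h z hz.1 hz0

/-- `X ^ q - ω ^ n` -/
theorem irr_pos (q n : ℕ) (hq : 0 < q) (hqn : Nat.Coprime q n) : Irreducible (X ^ q - C (ω ^ n) : K1[X]) := by
  have hm : (X ^ q - C (ω ^ n) : K1[X]).Monic := monic_X_pow_sub_C _ hq.ne'
  have hdeg : (X ^ q - C (ω ^ n) : K1[X]).natDegree = q := natDegree_X_pow_sub_C
  rw [hm.irreducible_iff_natDegree]
  refine ⟨by intro h; rw [h, natDegree_one] at hdeg; omega, ?_⟩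
  intro f g hf hg hfg
  have hd : f.natDegree + g.natDegree = q := by rw [← hf.natDegree_mul hg, hfg, hdeg]
  have h1 := coeff_zero_pow q (ω ^ n) f hf ⟨g, hfg.symm⟩
  have h2 : q ∣ n * f.natDegree := by
    refine (root_dvd q (n * f.natDegree) hq (f.coeff 0) ?_).1
    rw [h1, ← pow_mul, ← pow_mul]
    rcases neg_one_pow_eq_or K1 (f.natDegree * q) with h | h
    · left; rw [h, one_mul]
    · right; rw [h, neg_one_mul]
  have h3 : q ∣ f.natDegree := hqn.dvd_of_dvd_mul_left h2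
  rcases Nat.eq_zero_or_pos f.natDegree with h4 | h4
  · left; exact h4
  · right
    have := Nat.le_of_dvd h4 h3
    omega

lemma om_ne : (ω : K1) ≠ 0 := by
  intro h0
  have := t₁_om 1
  rw [h0, map_zero] at this
  exact (eps_pos 1).ne' this.symm

/-- the constant term of a divisor of `X ^ q + ω ^ (2 n)` -/
theorem coeff_neg (q n : ℕ) (hq : 0 < q) (f : K1[X]) (hf : f.Monic) (hd : f ∣ X ^ q - C (-ω ^ (2 * n))) :
    q ∣ n * f.natDegree := by
  have h1 := coeff_zero_pow q (-ω ^ (2 * n)) f hf hd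
  have h2 := root_dvd q (2 * n * f.natDegree) hq (f.coeff 0) (by
    rw [h1, neg_pow (ω ^ (2 * n)), ← pow_mul ω]
    have e1 : ∀ (s t : K1), (s = 1 ∨ s = -1) → (t = 1 ∨ t = -1) → ∀ z : K1, s ^ q * (t * z) = z ∨ s ^ q * (t * z) = -z := by
      intro s t hs ht z
      have hs' : s ^ q = 1 ∨ s ^ q = -1 := by
        rcases hs with rfl | rfl
        · left; exact one_pow _
        · exact neg_one_pow_eq_or K1 q
      rcases hs' with hs' | hs' <;> rcases ht with ht | ht <;> rw [hs', ht] <;> simp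
    exact e1 _ _ (neg_one_pow_eq_or K1 _) (neg_one_pow_eq_or K1 _) _)
  obtain ⟨⟨k, hk⟩, hη⟩ := h2
  have hk' : 2 * n * f.natDegree / q = k := by rw [hk]; exact Nat.mul_div_cancel_left _ hq
  rw [hk'] at hη
  -- positivity
  have hpos : ∀ t : K1 →+* ℝ, 0 < t (f.coeff 0) := by
    intro t
    rw [← coeff_map]
    apply coeff_zero_pos _ (hf.map t)
    intro x hx hx0
    obtain ⟨g, hg⟩ := hd
    have h3 := congrArg (fun p => (p.map t).eval x) hg
    simp only [Polynomial.map_mul, eval_mul, hx0, zero_mul, Polynomial.map_sub, Polynomial.map_pow, map_X, map_C,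
      eval_sub, eval_pow, eval_X, eval_C] at h3
    rw [map_neg, map_pow] at h3
    have h4 : 0 < t ω ^ (2 * n) := by
      rw [pow_mul]
      have : t ω ≠ 0 := (map_ne_zero_iff _ t.injective).2 om_ne
      positivity
    have h5 : 0 ≤ x ^ q := pow_nonneg hx _
    linarith
  have hst : 0 < t₁ 1 (star (f.coeff 0)) := hpos ((t₁ 1).comp (starRingEnd K1))
  have hn : t₁ 1 (f.coeff 0 * star (f.coeff 0)) = (-1) ^ k := by
    have e1 : f.coeff 0 * star (f.coeff 0) = (-1) ^ k := by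
      rcases hη with h | h
      · rw [h, star_pow, ← mul_pow, om_star]
      · rw [h, star_neg, neg_mul_neg, star_pow, ← mul_pow, om_star]
    rw [e1, map_pow, map_neg, map_one]
  rw [map_mul] at hn
  have hk2 : Even k := by
    by_contra hodd
    rw [Nat.not_even_iff_odd] at hodd
    rw [hodd.neg_one_pow] at hn
    have := mul_pos (hpos (t₁ 1)) hst
    rw [hn] at this
    norm_num at this
  obtain ⟨l, hl⟩ := hk2
  refine ⟨l, ?_⟩
  rw [hl] at hk
  have : 2 * (n * f.natDegree) = 2 * (q * l) := by linarith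
  omega

/-- `X ^ q + ω ^ (2 n)` -/
theorem irr_neg (q n : ℕ) (hq : 0 < q) (hqn : Nat.Coprime q n) :
    Irreducible (X ^ q - C (-ω ^ (2 * n)) : K1[X]) := by
  have hm : (X ^ q - C (-ω ^ (2 * n)) : K1[X]).Monic := monic_X_pow_sub_C _ hq.ne'
  have hdeg : (X ^ q - C (-ω ^ (2 * n)) : K1[X]).natDegree = q := natDegree_X_pow_sub_C
  rw [hm.irreducible_iff_natDegree]
  refine ⟨by intro h; rw [h, natDegree_one] at hdeg; omega, ?_⟩
  intro f g hf hg hfg
  have hd : f.natDegree + g.natDegree = q := by rw [← hf.natDegree_mul hg, hfg, hdeg]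
  have h2 := coeff_neg q n hq f hf ⟨g, hfg.symm⟩
  have h3 : q ∣ f.natDegree := hqn.dvd_of_dvd_mul_left h2
  rcases Nat.eq_zero_or_pos f.natDegree with h4 | h4
  · left; exact h4
  · right
    have := Nat.le_of_dvd h4 h3
    omega

end Pool.Agent.J4.H7.FB
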