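import Pool.Agent.J4.H7.FB.Irr
import Pool.Agent.J4.H7.FG.Mat

/-!
# The matrix of a sparse element of `ℤ[φ]`
-/

set_option autoImplicit false

namespace Pool.Agent.J4.H7.FB

open Pool.Agent.N449.SQ QuadraticAlgebra Polynomial Finset

/-- the ring `ℤ[φ]` -/
abbrev R1 := R 1

instance dom1 : IsDomain R1 := isDomain le_rfl

variable {J : Type} [Fintype J]

/-- the floor of `N k / q` -/
def fl (N q : ℕ) (k : ℤ) : ℤ := (N * k) / q

/-- the exponents -/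
def Ex (N q : ℕ) (b α k : ℤ) : ℤ := b - fl N q k + fl N q (k - α)

/-- the matrix -/
noncomputable def Mx (N q : ℕ) (κ : ℤˣ) (c : J → R1) (b α : J → ℤ) : Matrix (Fin q) (Fin q) R1 :=
  fun k k' => ∑ j, if ((k' : ℕ) : ℤ) = (((k : ℕ) : ℤ) - α j) % q then
    (((κ ^ ((((k : ℕ) : ℤ) - α j) / (q : ℤ)) : ℤˣ) : ℤ) : R1) * c j * w 1 (Ex N q (b j) (α j) (k : ℕ)) else 0

lemma fl_add (N q : ℕ) (hq : 0 < q) (k l : ℤ) : fl N q (k + q * l) = fl N q k + N * l := by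
  unfold fl
  rw [show (N : ℤ) * (k + q * l) = N * k + q * (N * l) by ring,
    Int.add_mul_ediv_left _ _ (by exact_mod_cast hq.ne')]

lemma fl_zero (N q : ℕ) : fl N q 0 = 0 := by unfold fl; simp

lemma fl_bounds (N q : ℕ) (hq : 0 < q) (k : ℤ) : (q : ℤ) * fl N q k ≤ N * k ∧ (N : ℤ) * k < q * fl N q k + q := by
  unfold fl
  have hq' : (0 : ℤ) < q := by exact_mod_cast hq
  refine ⟨Int.mul_ediv_self_le hq'.ne', ?_⟩
  exact Int.lt_mul_ediv_self_add hq'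

/-- the exponents are small -/
lemma Ex_bounds (N q t : ℕ) (b α k : ℤ) (hq : 0 < q) (ht : 0 < t)
    (h : (t : ℤ) * |(q : ℤ) * b - α * N| ≤ N) : |Ex N q b α k| ≤ (N / (t * q) + 1 : ℕ) := by
  obtain ⟨s', hs'⟩ : ∃ s', s' = N / (t * q) := ⟨_, rfl⟩
  have htq : 0 < t * q := Nat.mul_pos ht hq
  have hN : N < (s' + 1) * (t * q) := by
    rw [hs']
    have := Nat.lt_succ_self (N / (t * q))
    exact (Nat.div_lt_iff_lt_mul htq).1 this
  obtain ⟨x1, x2⟩ := fl_bounds N q hq k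
  obtain ⟨y1, y2⟩ := fl_bounds N q hq (k - α)
  unfold Ex
  rw [← hs']
  have z5 : (N : ℤ) < (s' + 1) * (t * q) := by exact_mod_cast hN
  have ht' : (0 : ℤ) < t := by exact_mod_cast ht
  have hq' : (0 : ℤ) < q := by exact_mod_cast hq
  obtain ⟨x, hx⟩ : ∃ x, x = fl N q k := ⟨_, rfl⟩
  obtain ⟨y, hy⟩ : ∃ y, y = fl N q (k - α) := ⟨_, rfl⟩
  rw [← hx] at x1 x2 ⊢
  rw [← hy] at y1 y2 ⊢
  obtain ⟨A, hA⟩ : ∃ A : ℤ, A = |(q : ℤ) * b - α * N| := ⟨_, rfl⟩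
  have h1 := abs_le.1 (le_refl |(q : ℤ) * b - α * N|)
  rw [← hA] at h h1
  obtain ⟨Δ, hΔ⟩ : ∃ Δ : ℤ, Δ = b - x + y := ⟨_, rfl⟩
  rw [← hΔ]
  have hqΔ : (q : ℤ) * Δ = q * b - q * x + q * y := by rw [hΔ]; ring
  have hkk : (N : ℤ) * (k - α) = N * k - α * N := by ring
  rw [hkk] at y1 y2
  have hqΔ1 : (q : ℤ) * Δ < A + q := by linarith [h1.2]
  have hqΔ2 : -(A + q) < (q : ℤ) * Δ := by linarith [h1.1]
  have e0 : (t : ℤ) * (A + q) < (s' + 2) * (t * q) := by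
    calc (t : ℤ) * (A + q) = t * A + t * q := by ring
      _ ≤ N + t * q := by linarith
      _ < (s' + 1) * (t * q) + t * q := by linarith
      _ = _ := by ring
  have htq' : (0 : ℤ) < t * q := mul_pos ht' hq'
  have e1 : (t * q : ℤ) * Δ < (t * q) * (s' + 2) := by
    calc (t * q : ℤ) * Δ = t * (q * Δ) := by ring
      _ < t * (A + q) := mul_lt_mul_of_pos_left hqΔ1 ht'
      _ < (s' + 2) * (t * q) := e0
      _ = _ := by ring
  have e2 : (t * q : ℤ) * (-((s' : ℤ) + 2)) < (t * q) * Δ := by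
    calc (t * q : ℤ) * (-((s' : ℤ) + 2)) = -((s' + 2) * (t * q)) := by ring
      _ < -(t * (A + q)) := neg_lt_neg e0
      _ = t * -(A + q) := by ring
      _ < t * (q * Δ) := mul_lt_mul_of_pos_left hqΔ2 ht'
      _ = _ := by ring
  have e3 : Δ < s' + 2 := lt_of_mul_lt_mul_left e1 htq'.le
  have e4 : -((s' : ℤ) + 2) < Δ := lt_of_mul_lt_mul_left e2 htq'.le
  push_cast
  rw [abs_le]
  constructor <;> linarith

section rel

variable {S : Type} [CommRing S] (ρ : R1 →+* S) (X : Sˣ)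

/-- the image of `φ` -/
noncomputable def W : Sˣ := Units.map (ρ : R1 →* S) (wu 1)

lemma map_w (x : ℤ) : ρ (w 1 x) = ((W ρ ^ x : Sˣ) : S) := by
  unfold W w
  rw [← map_zpow]
  rfl

/-- the sign -/
noncomputable def κS (S : Type) [CommRing S] (κ : ℤˣ) : Sˣ := Units.map (Int.castRingHom S : ℤ →* S) κ

lemma κS_zpow (κ : ℤˣ) (l : ℤ) : ((κS S κ ^ l : Sˣ) : S) = (((κ ^ l : ℤˣ) : ℤ) : S) := by
  unfold κS
  rw [← map_zpow]
  rfl

/-- the basis -/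
noncomputable def vv (N q : ℕ) (k : ℤ) : Sˣ := W ρ ^ (-fl N q k) * X ^ k

lemma vv_add (N q : ℕ) (hq : 0 < q) (κ : ℤˣ) (hX : X ^ q = κS S κ * W ρ ^ N) (k l : ℤ) :
    vv ρ X N q (k + q * l) = κS S κ ^ l * vv ρ X N q k := by
  unfold vv
  rw [fl_add N q hq, zpow_add X, zpow_mul X, zpow_natCast, hX, mul_zpow, ← zpow_natCast (W ρ), ← zpow_mul,
    neg_add, zpow_add (W ρ)]
  have : W ρ ^ (-((N : ℤ) * l)) * W ρ ^ ((N : ℤ) * l) = 1 := by rw [← zpow_add]; simp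
  calc W ρ ^ (-fl N q k) * W ρ ^ (-((N : ℤ) * l)) * (X ^ k * (κS S κ ^ l * W ρ ^ ((N : ℤ) * l))) =
      (W ρ ^ (-((N : ℤ) * l)) * W ρ ^ ((N : ℤ) * l)) * (κS S κ ^ l * (W ρ ^ (-fl N q k) * X ^ k)) := by
        simp only [mul_comm, mul_left_comm, mul_assoc]
    _ = _ := by rw [this, one_mul]

/-- the matrix is the matrix of multiplication by `∑ c j W ^ b j X ^ (-α j)` -/
theorem rel (N q : ℕ) (hq : 0 < q) (κ : ℤˣ) (hX : X ^ q = κS S κ * W ρ ^ N) (c : J → R1) (b α : J → ℤ)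
    (k : Fin q) :
    ∑ k' : Fin q, ρ (Mx N q κ c b α k k') * (vv ρ X N q ((k' : ℕ) : ℤ) : S) =
      (vv ρ X N q ((k : ℕ) : ℤ) : S) * ∑ j, ρ (c j) * ((W ρ ^ (b j) * X ^ (-α j) : Sˣ) : S) := by
  have hq' : (0 : ℤ) < q := by exact_mod_cast hq
  unfold Mx
  simp only [map_sum, Finset.sum_mul, Finset.mul_sum]
  rw [Finset.sum_comm]
  apply Finset.sum_congr rfl
  intro j _
  obtain ⟨r, hr⟩ : ∃ r : ℤ, r = (((k : ℕ) : ℤ) - α j) % q := ⟨_, rfl⟩
  obtain ⟨l, hl⟩ : ∃ l : ℤ, l = (((k : ℕ) : ℤ) - α j) / q := ⟨_, rfl⟩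
  have hr0 : 0 ≤ r := by rw [hr]; exact Int.emod_nonneg _ hq'.ne'
  have hr1 : r < q := by rw [hr]; exact Int.emod_lt_of_pos _ hq'
  have hrl : ((k : ℕ) : ℤ) - α j = r + q * l := by rw [hr, hl]; exact (Int.emod_add_mul_ediv _ _).symm
  have hrn : ((r.toNat : ℕ) : ℤ) = r := Int.toNat_of_nonneg hr0
  rw [← hr, ← hl]
  rw [Finset.sum_eq_single (⟨r.toNat, by omega⟩ : Fin q)]
  · rw [if_pos (by simpa using hrn), map_mul, map_mul, map_intCast, map_w ρ, ← κS_zpow]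
    simp only [hrn]
    have h1 := vv_add ρ X N q hq κ hX r l
    rw [← hrl] at h1
    have h2 : vv ρ X N q (((k : ℕ) : ℤ) - α j) =
        W ρ ^ (-fl N q (((k : ℕ) : ℤ) - α j)) * X ^ (((k : ℕ) : ℤ) - α j) := rfl
    have h3 : W ρ ^ (Ex N q (b j) (α j) ((k : ℕ) : ℤ)) * (κS S κ ^ l * vv ρ X N q r) =
        vv ρ X N q ((k : ℕ) : ℤ) * (W ρ ^ (b j) * X ^ (-α j)) := by
      rw [← h1, h2]
      unfold Ex vv
      rw [zpow_add (W ρ), zpow_sub (W ρ), zpow_sub X, zpow_neg, zpow_neg, zpow_neg]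
      obtain ⟨A, hA⟩ : ∃ A, A = W ρ ^ fl N q (((k : ℕ) : ℤ) - α j) := ⟨_, rfl⟩
      rw [← hA]
      calc W ρ ^ b j * (W ρ ^ fl N q ((k : ℕ) : ℤ))⁻¹ * A * (A⁻¹ * (X ^ (((k : ℕ) : ℤ)) * (X ^ α j)⁻¹)) =
          (A * A⁻¹) * (W ρ ^ b j * (W ρ ^ fl N q ((k : ℕ) : ℤ))⁻¹ * (X ^ (((k : ℕ) : ℤ)) * (X ^ α j)⁻¹)) := by
            simp only [mul_comm, mul_left_comm, mul_assoc]
        _ = (W ρ ^ fl N q ((k : ℕ) : ℤ))⁻¹ * X ^ ((k : ℕ) : ℤ) * (W ρ ^ b j * (X ^ α j)⁻¹) := by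
            rw [mul_inv_cancel, one_mul]
            simp only [mul_comm, mul_left_comm, mul_assoc]
    have h4 := congrArg (fun u : Sˣ => (u : S)) h3
    simp only [Units.val_mul] at h4 ⊢
    calc ((κS S κ ^ l : Sˣ) : S) * ρ (c j) * ((W ρ ^ Ex N q (b j) (α j) ((k : ℕ) : ℤ) : Sˣ) : S) *
          (vv ρ X N q r : S) = ρ (c j) * (((W ρ ^ Ex N q (b j) (α j) ((k : ℕ) : ℤ) : Sˣ) : S) *
          (((κS S κ ^ l : Sˣ) : S) * (vv ρ X N q r : S))) := by ring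
      _ = ρ (c j) * ((vv ρ X N q ((k : ℕ) : ℤ) : S) * (((W ρ ^ b j : Sˣ) : S) * ((X ^ (-α j) : Sˣ) : S))) := by rw [h4]
      _ = _ := by ring
  · intro k' _ hk'
    rw [if_neg, map_zero, zero_mul]
    intro hcon
    apply hk'
    apply Fin.ext
    simp only
    omega
  · intro hcon
    exact absurd (Finset.mem_univ _) hcon

end rel

/-- the determinant lies in every ideal which contains `w N - κ` and `∑ c j w (b j)` -/
theorem det_mem (N q : ℕ) (hq : 0 < q) (κ : ℤˣ) (c : J → R1) (b α : J → ℤ) (I : Ideal R1)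
    (h1 : w 1 N - ((κ : ℤ) : R1) ∈ I) (h2 : ∑ j, c j * w 1 (b j) ∈ I) : (Mx N q κ c b α).det ∈ I := by
  rw [← Ideal.Quotient.eq_zero_iff_mem] at h1 h2 ⊢
  obtain ⟨ρ, hρ⟩ : ∃ ρ : R1 →+* R1 ⧸ I, ρ = Ideal.Quotient.mk I := ⟨_, rfl⟩
  rw [← hρ] at h1 h2 ⊢
  have hX : (1 : (R1 ⧸ I)ˣ) ^ q = κS (R1 ⧸ I) κ * W ρ ^ N := by
    rw [one_pow]
    apply Units.ext
    rw [map_sub, map_intCast] at h1
    have h3 : ((W ρ ^ N : (R1 ⧸ I)ˣ) : R1 ⧸ I) = ((κ : ℤ) : R1 ⧸ I) := by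
      rw [← zpow_natCast, ← map_w ρ]
      exact sub_eq_zero.1 h1
    have h4 : ((κS (R1 ⧸ I) κ : (R1 ⧸ I)ˣ) : R1 ⧸ I) = ((κ : ℤ) : R1 ⧸ I) := rfl
    rw [Units.val_one, Units.val_mul, h3, h4, ← Int.cast_mul]
    have : (κ : ℤ) * κ = 1 := by
      rcases Int.units_eq_one_or κ with rfl | rfl <;> simp
    rw [this, Int.cast_one]
  rw [RingHom.map_det]
  have h5 : (ρ.mapMatrix (Mx N q κ c b α)).mulVec (fun k' : Fin q => ((vv ρ 1 N q ((k' : ℕ) : ℤ) : (R1 ⧸ I)ˣ) : R1 ⧸ I)) = 0 := by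
    funext k
    have h6 := rel ρ 1 N q hq κ hX c b α k
    rw [Pi.zero_apply, Matrix.mulVec, dotProduct]
    simp only [RingHom.mapMatrix_apply, Matrix.map_apply]
    rw [h6]
    have h7 : ∑ j, ρ (c j) * ((W ρ ^ (b j) * 1 ^ (-α j) : (R1 ⧸ I)ˣ) : R1 ⧸ I) = 0 := by
      rw [← h2, map_sum]
      apply Finset.sum_congr rfl
      intro j _
      rw [map_mul, map_w ρ, one_zpow, mul_one]
    rw [h7, mul_zero]
  apply Pool.Agent.J4.H7.FG.det_zero_of_mulVec _ _ h5 ⟨0, hq⟩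
  unfold vv
  simp [fl_zero]

/-- the determinant is at most the product of the `l¹`-norms of the rows -/
lemma det_le_rows {n : Type} [Fintype n] [DecidableEq n] (A : Matrix n n ℝ) :
    |A.det| ≤ ∏ i, ∑ j, |A i j| := by
  rw [← Matrix.det_transpose, Matrix.det_apply]
  refine (Finset.abs_sum_le_sum_abs _ _).trans ?_
  rw [Finset.prod_univ_sum]
  have h1 : ∀ σ : Equiv.Perm n, |Equiv.Perm.sign σ • ∏ i, A.transpose (σ i) i| = ∏ i, |A i (σ i)| := by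
    intro σ
    rw [Units.smul_def, zsmul_eq_mul, abs_mul, Finset.abs_prod]
    rcases Int.units_eq_one_or (Equiv.Perm.sign σ) with h | h <;> simp [h, Matrix.transpose_apply]
  rw [Finset.sum_congr rfl fun σ _ => h1 σ]
  have h2 : ∑ σ : Equiv.Perm n, ∏ i, |A i (σ i)| =
      ∑ f ∈ Finset.univ.image (fun σ : Equiv.Perm n => (⇑σ : n → n)), ∏ i, |A i (f i)| := by
    rw [Finset.sum_image]
    intro σ _ τ _ h
    exact Equiv.coe_fn_injective h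
  rw [h2]
  refine Finset.sum_le_sum_of_subset_of_nonneg ?_ fun f _ _ => Finset.prod_nonneg fun i _ => abs_nonneg _
  intro f _
  rw [Fintype.mem_piFinset]
  exact fun i => Finset.mem_univ _

/-- bounds for the determinant -/
theorem det_bound (N q t : ℕ) (hq : 0 < q) (ht : 0 < t) (κ : ℤˣ) (c : J → R1) (b α : J → ℤ)
    (h : ∀ j, (t : ℤ) * |(q : ℤ) * b j - α j * N| ≤ N) (σ : R1 →+* ℝ) (hσ : ∀ z, |σ z| ≤ hs 1 z)
    (hw : ∀ x : ℤ, |σ (w 1 x)| ≤ eps 1 ^ |x|) :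
    |σ (Mx N q κ c b α).det| ≤ ((∑ j, hs 1 (c j)) * eps 1 ^ (N / (t * q) + 1)) ^ q := by
  have he1 := one_lt_eps (a := 1) le_rfl
  have he0 := eps_pos 1
  have hrow : ∀ k : Fin q, ∑ k' : Fin q, |σ (Mx N q κ c b α k k')| ≤
      (∑ j, hs 1 (c j)) * eps 1 ^ (N / (t * q) + 1) := by
    intro k
    have h1 : ∀ k' : Fin q, |σ (Mx N q κ c b α k k')| ≤
        ∑ j, if ((k' : ℕ) : ℤ) = (((k : ℕ) : ℤ) - α j) % q then hs 1 (c j) * eps 1 ^ (N / (t * q) + 1) else 0 := by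
      intro k'
      unfold Mx
      rw [map_sum]
      refine (Finset.abs_sum_le_sum_abs _ _).trans (Finset.sum_le_sum fun j _ => ?_)
      split_ifs with h2
      · rw [map_mul, map_mul, abs_mul, abs_mul, map_intCast]
        have h3 : |((((κ ^ ((((k : ℕ) : ℤ) - α j) / (q : ℤ)) : ℤˣ) : ℤ)) : ℝ)| = 1 := by
          rcases Int.units_eq_one_or (κ ^ ((((k : ℕ) : ℤ) - α j) / (q : ℤ))) with h | h <;> rw [h] <;> simp
        rw [h3, one_mul]
        apply mul_le_mul (hσ _) _ (abs_nonneg _) (hs_nonneg _ _)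
        refine (hw _).trans ?_
        have h4 := Ex_bounds N q t (b j) (α j) (k : ℕ) hq ht (h j)
        rw [← zpow_natCast]
        exact zpow_le_zpow_right₀ he1.le h4
      · rw [map_zero, abs_zero]
    refine (Finset.sum_le_sum fun k' _ => h1 k').trans ?_
    rw [Finset.sum_comm, Finset.sum_mul]
    apply Finset.sum_le_sum
    intro j _
    have hq' : (0 : ℤ) < q := by exact_mod_cast hq
    obtain ⟨r, hr⟩ : ∃ r : ℤ, r = (((k : ℕ) : ℤ) - α j) % q := ⟨_, rfl⟩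
    have hr0 : 0 ≤ r := by rw [hr]; exact Int.emod_nonneg _ hq'.ne'
    have hr1 : r < q := by rw [hr]; exact Int.emod_lt_of_pos _ hq'
    rw [← hr, Finset.sum_eq_single (⟨r.toNat, by omega⟩ : Fin q)]
    · split_ifs
      · exact le_rfl
      · exact mul_nonneg (hs_nonneg _ _) (by positivity)
    · intro k' _ hk'
      rw [if_neg]
      intro hcon
      apply hk'
      apply Fin.ext
      simp only
      omega
    · intro hcon
      exact absurd (Finset.mem_univ _) hcon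
  rw [RingHom.map_det]
  refine (det_le_rows _).trans ?_
  simp only [RingHom.mapMatrix_apply, Matrix.map_apply]
  calc ∏ k : Fin q, ∑ k' : Fin q, |σ (Mx N q κ c b α k k')| ≤
        ∏ _k : Fin q, (∑ j, hs 1 (c j)) * eps 1 ^ (N / (t * q) + 1) :=
        Finset.prod_le_prod (fun k _ => Finset.sum_nonneg fun _ _ => abs_nonneg _) fun k _ => hrow k
    _ = _ := by rw [Finset.prod_const, Finset.card_univ, Fintype.card_fin]

end Pool.Agent.J4.H7.FB
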