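import Pool.Agent.J4.H7.FB.Mat

/-!
# If the determinant vanishes then the sparse element is divisible by `w N - κ`
-/

set_option autoImplicit false

namespace Pool.Agent.J4.H7.FB

open Pool.Agent.N449.SQ QuadraticAlgebra Polynomial Finset

variable {J : Type} [Fintype J]

lemma inc_inj : Function.Injective (inc 1) := by
  intro x y h
  have h1 := congrArg QuadraticAlgebra.re h
  have h2 := congrArg QuadraticAlgebra.im h
  simp only [inc, RingHom.coe_mk, MonoidHom.coe_mk, OneHom.coe_mk] at h1 h2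
  exact QuadraticAlgebra.ext (by exact_mod_cast h1) (by exact_mod_cast h2)

lemma inc_w (n : ℕ) : inc 1 (w 1 (n : ℤ)) = ω ^ n := by
  have h1 : w 1 (n : ℤ) = (⟨0, 1⟩ : R1) ^ n := by
    unfold w
    rw [zpow_natCast, Units.val_pow_eq_pow_val]
    rfl
  have h2 : inc 1 (⟨0, 1⟩ : R1) = ω := by ext <;> simp [inc]
  rw [h1, map_pow, h2]

/-- the vanishing of the determinant -/
theorem dvd_of_det (N q : ℕ) (hq : 0 < q) (κ : ℤˣ)
    (hirr : Irreducible (X ^ q - C (((κ : ℤ) : K1) * ω ^ N) : K1[X])) (c : J → R1) (b α : J → ℤ)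
    (hα : ∀ j, 2 * |α j| ≤ q) (hdet : (Mx N q κ c b α).det = 0) :
    w 1 N - ((κ : ℤ) : R1) ∣ ∑ j, c j * w 1 (b j) := by
  obtain ⟨P, hP⟩ : ∃ P : K1[X], P = X ^ q - C (((κ : ℤ) : K1) * ω ^ N) := ⟨_, rfl⟩
  rw [← hP] at hirr
  have hPm : P.Monic := by rw [hP]; exact monic_X_pow_sub_C _ hq.ne'
  have hPd : P.natDegree = q := by rw [hP]; exact natDegree_X_pow_sub_C
  have : Fact (Irreducible P) := ⟨hirr⟩
  have hκ0 : ((κ : ℤ) : K1) ≠ 0 := by
    rcases Int.units_eq_one_or κ with rfl | rfl <;> simp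
  obtain ⟨x, hx⟩ : ∃ x : AdjoinRoot P, x = AdjoinRoot.root P := ⟨_, rfl⟩
  have hxq : x ^ q = algebraMap K1 (AdjoinRoot P) (((κ : ℤ) : K1) * ω ^ N) := by
    have h1 : AdjoinRoot.mk P (X ^ q - C (((κ : ℤ) : K1) * ω ^ N)) = 0 := by
      rw [← hP]
      exact AdjoinRoot.mk_self
    rw [map_sub, map_pow, AdjoinRoot.mk_X, AdjoinRoot.mk_C, ← hx, sub_eq_zero] at h1
    exact h1
  have hx0 : x ≠ 0 := by
    intro h
    rw [h, zero_pow hq.ne'] at hxq
    have := (map_eq_zero (algebraMap K1 (AdjoinRoot P))).1 hxq.symm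
    exact (mul_ne_zero hκ0 (pow_ne_zero _ om_ne)) this
  obtain ⟨ρ, hρ⟩ : ∃ ρ : R1 →+* AdjoinRoot P, ρ = (algebraMap K1 (AdjoinRoot P)).comp (inc 1) := ⟨_, rfl⟩
  have hρa : ∀ z, ρ z = algebraMap K1 (AdjoinRoot P) (inc 1 z) := fun z => by rw [hρ]; rfl
  obtain ⟨Xu, hXu⟩ : ∃ Xu : (AdjoinRoot P)ˣ, Xu = Units.mk0 x hx0 := ⟨_, rfl⟩
  have hXv : (Xu : AdjoinRoot P) = x := by rw [hXu]; rfl
  have hX : Xu ^ q = κS (AdjoinRoot P) κ * W ρ ^ N := by
    apply Units.ext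
    rw [Units.val_mul, Units.val_pow_eq_pow_val, hXv, hxq, ← zpow_natCast (W ρ), ← map_w ρ, hρa, inc_w, map_mul,
      map_intCast]
    rfl
  -- the vector
  obtain ⟨z, hz0, hz⟩ := Matrix.exists_vecMul_eq_zero_iff.2 hdet
  have hprod : (∑ k : Fin q, ρ (z k) * (vv ρ Xu N q ((k : ℕ) : ℤ) : AdjoinRoot P)) *
      ∑ j, ρ (c j) * ((W ρ ^ (b j) * Xu ^ (-α j) : (AdjoinRoot P)ˣ) : AdjoinRoot P) = 0 := by
    rw [Finset.sum_mul]
    have h1 : ∀ k : Fin q, ρ (z k) * (vv ρ Xu N q ((k : ℕ) : ℤ) : AdjoinRoot P) *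
        ∑ j, ρ (c j) * ((W ρ ^ (b j) * Xu ^ (-α j) : (AdjoinRoot P)ˣ) : AdjoinRoot P) =
        ∑ k' : Fin q, ρ (z k * Mx N q κ c b α k k') * (vv ρ Xu N q ((k' : ℕ) : ℤ) : AdjoinRoot P) := by
      intro k
      rw [mul_assoc, ← rel ρ Xu N q hq κ hX c b α k, Finset.mul_sum]
      apply Finset.sum_congr rfl
      intro k' _
      rw [map_mul]; ring
    rw [Finset.sum_congr rfl fun k _ => h1 k, Finset.sum_comm]
    apply Finset.sum_eq_zero
    intro k' _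
    rw [← Finset.sum_mul, ← map_sum]
    have h2 := congrFun hz k'
    rw [Matrix.vecMul, dotProduct, Pi.zero_apply] at h2
    rw [h2, map_zero, zero_mul]
  have hZ0 : (∑ k : Fin q, ρ (z k) * (vv ρ Xu N q ((k : ℕ) : ℤ) : AdjoinRoot P)) ≠ 0 := by
    intro hcon
    obtain ⟨Zp, hZp⟩ : ∃ Zp : K1[X], Zp = ∑ k : Fin q, C (inc 1 (z k * w 1 (-fl N q ((k : ℕ) : ℤ)))) * X ^ (k : ℕ) :=
      ⟨_, rfl⟩
    have h3 : (AdjoinRoot.mk P) Zp = 0 := by
      rw [← hcon, hZp, map_sum]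
      apply Finset.sum_congr rfl
      intro k _
      unfold vv
      rw [Units.val_mul, ← map_w ρ, zpow_natCast, Units.val_pow_eq_pow_val, hXv, map_mul, map_pow, AdjoinRoot.mk_X,
        AdjoinRoot.mk_C, hρa, hρa, map_mul, ← hx, ← mul_assoc]
      congr 1
      rw [map_mul]
      rfl
    rw [AdjoinRoot.mk_eq_zero] at h3
    have h4 : Zp.degree < P.degree := by
      rw [degree_eq_natDegree hPm.ne_zero, hPd, hZp]
      refine (degree_sum_le _ _).trans_lt ?_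
      rw [Finset.sup_lt_iff (by exact WithBot.bot_lt_coe q)]
      intro k _
      refine (degree_C_mul_X_pow_le _ _).trans_lt ?_
      exact_mod_cast k.2
    have h5 : Zp = 0 := eq_zero_of_dvd_of_degree_lt h3 h4
    apply hz0
    funext k
    have h6 : Zp.coeff k = inc 1 (z k * w 1 (-fl N q ((k : ℕ) : ℤ))) := by
      rw [hZp, finsetSum_coeff, Finset.sum_eq_single k]
      · rw [coeff_C_mul_X_pow, if_pos rfl]
      · intro b _ hb
        rw [coeff_C_mul_X_pow, if_neg]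
        intro hcon
        exact hb (Fin.ext hcon.symm)
      · intro hcon
        exact absurd (Finset.mem_univ _) hcon
    rw [h5, coeff_zero] at h6
    have h7 : z k * w 1 (-fl N q ((k : ℕ) : ℤ)) = 0 := inc_inj (by rw [← h6, map_zero])
    rcases mul_eq_zero.1 h7 with h | h
    · exact h
    · exact absurd h (w_ne_zero 1 _)
  have hβ0 := (mul_eq_zero.1 hprod).resolve_left hZ0
  -- the polynomial
  obtain ⟨h, hh⟩ : ∃ h : ℕ, h = q / 2 := ⟨_, rfl⟩
  have hn : ∀ j, (((h : ℤ) - α j).toNat : ℤ) = h - α j ∧ ((h : ℤ) - α j).toNat ≤ q := by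
    intro j
    have h1 := hα j
    have h2 := le_abs_self (α j)
    have h3 := neg_abs_le (α j)
    omega
  obtain ⟨β, hβ⟩ : ∃ β : K1[X], β = ∑ j, C (inc 1 (c j * w 1 (b j))) * X ^ ((h : ℤ) - α j).toNat := ⟨_, rfl⟩
  have hdvd : P ∣ β := by
    rw [← AdjoinRoot.mk_eq_zero, hβ, map_sum]
    have h1 : ∀ j, (AdjoinRoot.mk P) (C (inc 1 (c j * w 1 (b j))) * X ^ ((h : ℤ) - α j).toNat) =
        (ρ (c j) * ((W ρ ^ (b j) * Xu ^ (-α j) : (AdjoinRoot P)ˣ) : AdjoinRoot P)) * ((Xu ^ (h : ℤ) : (AdjoinRoot P)ˣ) : AdjoinRoot P) := by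
      intro j
      have e1 : ((Xu ^ (-α j) : (AdjoinRoot P)ˣ) : AdjoinRoot P) * ((Xu ^ (h : ℤ) : (AdjoinRoot P)ˣ) : AdjoinRoot P) =
          x ^ ((h : ℤ) - α j).toNat := by
        rw [← Units.val_mul, ← zpow_add, show -α j + (h : ℤ) = ((((h : ℤ) - α j).toNat : ℕ) : ℤ) by
          rw [(hn j).1]; ring, zpow_natCast, Units.val_pow_eq_pow_val, hXv]
      rw [map_mul, map_pow, AdjoinRoot.mk_X, AdjoinRoot.mk_C, ← hx, ← e1, Units.val_mul, ← map_w ρ, hρa, hρa,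
        map_mul, map_mul]
      simp only [AdjoinRoot.algebraMap_eq]
      ring
    rw [Finset.sum_congr rfl fun j _ => h1 j, ← Finset.sum_mul, hβ0, zero_mul]
  have hβd : β.natDegree ≤ q := by
    rw [hβ]
    apply natDegree_sum_le_of_forall_le
    intro j _
    exact (natDegree_C_mul_X_pow_le _ _).trans (hn j).2
  obtain ⟨H, hH⟩ := hdvd
  have hHd : H.natDegree = 0 := by
    by_cases hH0 : H = 0
    · rw [hH0, natDegree_zero]
    have h3 : β.natDegree = q + H.natDegree := by rw [hH, hPm.natDegree_mul' hH0, hPd]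
    omega
  rw [natDegree_eq_zero] at hHd
  obtain ⟨g, hg⟩ := hHd
  have hcoef : β.coeff q = g := by
    rw [hH, ← hg, coeff_mul_C, ← hPd, hPm.coeff_natDegree, one_mul]
  obtain ⟨γ, hγ⟩ : ∃ γ : R1, inc 1 γ = g := by
    rw [← hcoef, hβ, finsetSum_coeff]
    refine ⟨∑ j, if q = ((h : ℤ) - α j).toNat then c j * w 1 (b j) else 0, ?_⟩
    rw [map_sum]
    apply Finset.sum_congr rfl
    intro j _
    rw [coeff_C_mul_X_pow]
    split_ifs
    · rfl
    · exact map_zero _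
  have h3 : β.eval 1 = (1 - ((κ : ℤ) : K1) * ω ^ N) * g := by
    rw [hH, ← hg, eval_mul, eval_C, hP, eval_sub, eval_pow, eval_X, eval_C, one_pow]
  have h4 : β.eval 1 = inc 1 (∑ j, c j * w 1 (b j)) := by
    rw [hβ, eval_finsetSum, map_sum]
    apply Finset.sum_congr rfl
    intro j _
    rw [eval_mul, eval_C, eval_pow, eval_X, one_pow, mul_one]
  have h5 : inc 1 (∑ j, c j * w 1 (b j)) = inc 1 ((1 - ((κ : ℤ) : R1) * w 1 N) * γ) := by
    rw [← h4, h3, map_mul, map_sub, map_one, map_mul, map_intCast, inc_w, hγ]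
  have h6 := inc_inj h5
  rw [h6]
  refine ⟨-((κ : ℤ) : R1) * γ, ?_⟩
  have hκ2 : ((κ : ℤ) : R1) * ((κ : ℤ) : R1) = 1 := by
    rw [← Int.cast_mul]
    rcases Int.units_eq_one_or κ with rfl | rfl <;> simp
  linear_combination (-γ) * hκ2

end Pool.Agent.J4.H7.FB
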